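import Pool.Agent.H512.E.Minor

set_option autoImplicit false
set_option linter.unusedSectionVars false

/-!
# The linear algebra for large primes
-/

namespace Pool.Agent.H512.E

open NumberField Pool.Agent.H512.IT Pool.Agent.W289.SL
open scoped Nat

section phi

variable {q : ℕ} [hq : Fact q.Prime] {E : Type} [Field E] [NumberField E]

/-- the reduction of the algebraic integers of `E` -/
noncomputable def phi (j : E →+* ℂ_[q]) : 𝓞 E →+* Kap q :=
  rd.comp ((j.comp (algebraMap (𝓞 E) E)).codRestrict (Oc q) (fun x => norm_emb_le j x))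

lemma phi_apply (j : E →+* ℂ_[q]) (x : 𝓞 E) : phi j x = rdc (j x) :=
  (rdc_eq (norm_emb_le j x)).symm

lemma norm_root {x : ℂ_[q]} {n : ℕ} (hn : 0 < n) (h : x ^ n = 1) : ‖x‖ = 1 := by
  have h1 := congrArg norm h
  rw [norm_pow, norm_one] at h1
  exact (pow_eq_one_iff_of_nonneg (norm_nonneg _) hn.ne').1 h1

end phi

variable {p : ℕ} [hp : Fact p.Prime]

theorem propC_big_aux {E : Type} [Field E] [NumberField E] (hp2 : p ≠ 2) {n m : ℕ}
    (hn : n = 2 ^ (m + 1))
    {I Δ : Type} [Fintype I] [Fintype Δ] (hodd : Odd (Fintype.card Δ))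
    (hI : Fintype.card I ≤ Fintype.card Δ) [IsCyclotomicExtension {n * Fintype.card Δ} ℚ E]
    (hbig : (2 ^ m * Fintype.card Δ)! ^ (2 ^ m * Fintype.card Δ) < p) {W : I → Δ → ℂ_[p]}
    (hW : ∀ i δ, W i δ ^ Fintype.card Δ = 1)
    (horth : ∀ i i', i ≠ i' → ∑ δ, (W i δ)⁻¹ * W i' δ = 0) {S : ZMod n → Δ → Prop}
    (hS : ∀ j δ, S j δ ∨ S (j + ((2 ^ m : ℕ) : ZMod n)) δ) :
    PropC (Kap p) n (2 ^ m) (fun i δ => rdc (W i δ)) S := by
  classical
  set u := Fintype.card Δ with hu
  have hu0 : 0 < u := hodd.pos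
  have hn0 : 0 < n := by rw [hn]; exact pow_pos two_pos _
  have : NeZero n := ⟨hn0.ne'⟩
  have : NeZero u := ⟨hu0.ne'⟩
  have hN0 : 0 < n * u := Nat.mul_pos hn0 hu0
  have : NeZero (n * u) := ⟨hN0.ne'⟩
  obtain ⟨jp⟩ : Nonempty (E →+* ℂ_[p]) := inferInstance
  obtain ⟨j2⟩ : Nonempty (E →+* ℂ_[2]) := inferInstance
  have hζ : IsPrimitiveRoot (IsCyclotomicExtension.zeta (n * Fintype.card Δ) ℚ E) (n * u) :=
    IsCyclotomicExtension.zeta_spec (n * Fintype.card Δ) ℚ E
  let z : 𝓞 E := hζ.toInteger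
  have hz : IsPrimitiveRoot z (n * u) := hζ.toInteger_isPrimitiveRoot
  have hξ : IsPrimitiveRoot (z ^ u) n := hz.pow hN0 (mul_comm n u)
  have hω : IsPrimitiveRoot (z ^ n) u := hz.pow hN0 rfl
  let χ : AddChar (ZMod n) (𝓞 E) := AddChar.zmodChar n hξ.pow_eq_one
  have hχ : χ.IsPrimitive := AddChar.zmodChar_primitive_of_primitive_root n hξ
  have hχpow : ∀ a, χ a ^ n = 1 := by
    intro a
    change ((z ^ u) ^ a.val) ^ n = 1
    rw [← pow_mul, mul_comm, pow_mul, hξ.pow_eq_one, one_pow]
  let fp : 𝓞 E →+* ℂ_[p] := jp.comp (algebraMap (𝓞 E) E)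
  have hfp : Function.Injective fp := jp.injective.comp RingOfIntegers.coe_injective
  have hfpx : ∀ x : 𝓞 E, fp x = jp x := fun x => rfl
  let f2 : 𝓞 E →+* ℂ_[2] := j2.comp (algebraMap (𝓞 E) E)
  have hf2 : Function.Injective f2 := j2.injective.comp RingOfIntegers.coe_injective
  have hf2x : ∀ x : 𝓞 E, f2 x = j2 x := fun x => rfl
  have hfω : IsPrimitiveRoot (fp (z ^ n)) u := hω.map_of_injective hfp
  have hw : ∀ i δ, ∃ k : ℕ, fp (z ^ n) ^ k = W i δ := by
    intro i δ
    obtain ⟨k, -, hk⟩ := hfω.eq_pow_of_pow_eq_one (hW i δ)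
    exact ⟨k, hk⟩
  choose k hk using hw
  let w : I → Δ → 𝓞 E := fun i δ => (z ^ n) ^ k i δ
  have hwf : ∀ i δ, fp (w i δ) = W i δ := fun i δ => by rw [← hk, map_pow]
  have hwu : ∀ i δ, w i δ ^ u = 1 := by
    intro i δ
    rw [← pow_mul, mul_comm, pow_mul, hω.pow_eq_one, one_pow]
  have hworth : ∀ i i', i ≠ i' → ∑ δ, w i δ ^ (u - 1) * w i' δ = 0 := by
    intro i i' hne
    apply hfp
    rw [map_sum, map_zero, ← horth i i' hne]
    refine Finset.sum_congr rfl fun δ _ => ?_
    rw [map_mul, map_pow, hwf, hwf]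
    congr 1
    symm
    apply inv_eq_of_mul_eq_one_left
    rw [← pow_succ, Nat.sub_add_cancel hu0, hW]
  -- characteristic two
  have hφw : ∀ i δ, phi j2 (w i δ) ^ u = 1 := fun i δ => by rw [← map_pow, hwu, map_one]
  have hφw0 : ∀ i δ, phi j2 (w i δ) ≠ 0 := by
    intro i δ h
    have h1 := hφw i δ
    rw [h, zero_pow hu0.ne'] at h1
    exact zero_ne_one h1
  have hC2 : PropC (Kap 2) n (2 ^ m) (fun i δ => phi j2 (w i δ)) S := by
    apply propC_two hn hS hφw0
    · intro i i' hne
      have h1 := congrArg (phi j2) (hworth i i' hne)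
      rw [map_sum, map_zero] at h1
      rw [← h1]
      refine Finset.sum_congr rfl fun δ _ => ?_
      rw [map_mul, map_pow (phi j2) (w i δ) (u - 1)]
      congr 1
      apply inv_eq_of_mul_eq_one_left
      rw [← pow_succ, Nat.sub_add_cancel hu0, hφw]
    · rw [← hu]
      intro h
      rw [CharP.cast_eq_zero_iff (Kap 2) 2] at h
      exact (Nat.not_even_iff_odd.2 hodd) (even_iff_two_dvd.2 h)
  have hC2' : PropC (Kap 2) n (2 ^ m) (fun i δ => rdc (f2 (w i δ))) S := by
    have h1 : (fun i δ => rdc (f2 (w i δ))) = fun i δ => phi j2 (w i δ) := by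
      funext i δ
      exact (phi_apply j2 (w i δ)).symm
    rw [h1]
    exact hC2
  -- the spaces at `p`
  have hpn : ¬ p ∣ n := by
    intro h
    rw [hn] at h
    exact hp2 ((Nat.prime_dvd_prime_iff_eq hp.out Nat.prime_two).1 (hp.out.dvd_of_dvd_pow h))
  have hnp : (n : Kap p) ≠ 0 := by
    intro h
    rw [CharP.cast_eq_zero_iff (Kap p) p] at h
    exact hpn h
  have hn2 : (n : ℂ_[2]) ≠ 0 := by exact_mod_cast hn0.ne'
  intro X hX hdim x hx hrel
  let Ω : I → Type := fun i => {a : ZMod n // (fun j => phi jp (χ (a * j))) ∈ X i}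
  have hΩ : ∀ i, Fintype.card (Ω i) ≤ 2 ^ m := fun i =>
    (card_le hχ (phi jp) hnp (X i)).trans (hdim i)
  let P : Type := Σ i, Ω i
  have hPcard : Fintype.card P ≤ 2 ^ m * u := by
    rw [Fintype.card_sigma]
    refine (Finset.sum_le_card_nsmul _ _ _ (fun i _ => hΩ i)).trans ?_
    rw [Finset.card_univ, smul_eq_mul, mul_comm]
    exact Nat.mul_le_mul_left _ hI
  let C : Type := {z : ZMod n × Δ // S z.1 z.2}
  let M : Matrix P C (𝓞 E) := Matrix.of fun q c => w q.1 c.1.2 * χ (q.2.1 * c.1.1)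
  have hM : ∀ q c, M q c = w q.1 c.1.2 * χ (q.2.1 * c.1.1) := fun q c => rfl
  -- the rows are linearly independent in characteristic zero
  have hrow : LinearIndependent ℂ_[2] (M.map f2).row := by
    rw [Fintype.linearIndependent_iff]
    intro g hg
    have h1 : ∀ j δ, S j δ → ∑ q : P, g q * f2 (w q.1 δ * χ (q.2.1 * j)) = 0 := by
      intro j δ hj
      have h2 := congrFun hg (⟨(j, δ), hj⟩ : C)
      have h3 : ∑ q : P, g q * f2 (M q ⟨(j, δ), hj⟩) = 0 := by
        simpa [Finset.sum_apply] using h2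
      exact h3
    let V : I → Submodule ℂ_[2] (ZMod n → ℂ_[2]) := fun i =>
      Submodule.span ℂ_[2] (Set.range fun a : Ω i => fun j => f2 (χ (a.1 * j)))
    let v : I → ZMod n → ℂ_[2] := fun i => ∑ a : Ω i, g ⟨i, a⟩ • fun j => f2 (χ (a.1 * j))
    have hv0 := lemB' (p := 2) (W := fun i δ => f2 (w i δ))
      (fun i δ => norm_emb_le j2 (w i δ)) hC2' V (by
        intro i
        refine (finrank_range_le_card _).trans (hΩ i)) (by
        intro i f hf
        induction hf using Submodule.span_induction with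
        | mem f hf =>
          obtain ⟨a, rfl⟩ := hf
          have h2 : (fun j : ZMod n => f2 (χ (a.1 * (j + 1)))) =
              f2 (χ a.1) • fun j => f2 (χ (a.1 * j)) := by
            funext j
            rw [Pi.smul_apply, smul_eq_mul, ← map_mul, ← AddChar.map_add_eq_mul]
            congr 2
            ring
          change (fun j : ZMod n => f2 (χ (a.1 * (j + 1)))) ∈ V i
          rw [h2]
          exact Submodule.smul_mem _ _ (Submodule.subset_span ⟨a, rfl⟩)
        | zero => exact Submodule.zero_mem _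
        | add f f' _ _ h h' => exact Submodule.add_mem _ h h'
        | smul c f _ h => exact Submodule.smul_mem _ c h) (v := v)
      (fun i => Submodule.sum_mem _ fun a _ => Submodule.smul_mem _ _
        (Submodule.subset_span ⟨a, rfl⟩)) (by
        intro j δ hj
        rw [← h1 j δ hj, Fintype.sum_sigma]
        refine Finset.sum_congr rfl fun i _ => ?_
        simp only [v, Finset.sum_apply, Pi.smul_apply, smul_eq_mul]
        rw [Finset.mul_sum]
        refine Finset.sum_congr rfl fun a _ => ?_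
        rw [map_mul f2]
        ring)
    rintro ⟨i, a⟩
    have h2 := hv0 i
    have h3 : LinearIndependent ℂ_[2] (fun a : Ω i => fun j => f2 (χ (a.1 * j))) :=
      (linInd hχ f2 hn2).comp _ Subtype.val_injective
    exact (Fintype.linearIndependent_iff.1 h3) (fun a => g ⟨i, a⟩) h2 a
  obtain ⟨col, hcol⟩ := exists_minor _ hrow
  set D : 𝓞 E := (M.submatrix id col).det with hD
  have hD0 : D ≠ 0 := by
    intro h
    apply hcol
    have h1 : (M.map f2).submatrix id col = f2.mapMatrix (M.submatrix id col) := rfl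
    rw [h1, ← RingHom.map_det, ← hD, h, map_zero]
  -- the determinant is a unit at `p`
  have hDn : ‖jp D‖ = 1 := by
    refine norm_one_of_small jp hD0 ((2 ^ m * u)!) ?_ ?_
    · intro σ
      let g : 𝓞 E →+* ℂ := σ.comp (algebraMap (𝓞 E) E)
      have h1 : σ ((D : 𝓞 E) : E) = (g.mapMatrix (M.submatrix id col)).det := by
        rw [← RingHom.map_det]
        rfl
      rw [h1]
      have hroot : ∀ (y : 𝓞 E) (r : ℕ), 0 < r → y ^ r = 1 → ‖g y‖ = 1 := by
        intro y r hr hy
        have h4 : g y ^ r = 1 := by rw [← map_pow, hy, map_one]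
        have h5 := congrArg norm h4
        rw [norm_pow, norm_one] at h5
        exact (pow_eq_one_iff_of_nonneg (norm_nonneg _) hr.ne').1 h5
      have h2 := Matrix.det_le (A := g.mapMatrix (M.submatrix id col))
        (abv := (IsAbsoluteValue.toAbsoluteValue (norm : ℂ → ℝ))) (x := 1) (by
          intro q q'
          change ‖g (w q.1 (col q').1.2 * χ (q.2.1 * (col q').1.1))‖ ≤ 1
          rw [map_mul, norm_mul, hroot _ u hu0 (hwu _ _), hroot _ n hn0 (hχpow _), one_mul])
      rw [one_pow, nsmul_eq_mul, mul_one] at h2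
      refine h2.trans ?_
      exact_mod_cast Nat.factorial_le hPcard
    · have h1 : Module.finrank ℚ E = Nat.totient (n * u) :=
        IsCyclotomicExtension.finrank (n := n * u) E (Polynomial.cyclotomic.irreducible_rat hN0)
      rw [h1]
      refine lt_of_le_of_lt ?_ hbig
      apply Nat.pow_le_pow_right (Nat.factorial_pos _)
      have h2 : Nat.Coprime n u := by
        rw [hn]
        exact Nat.Coprime.pow_left _ hodd.coprime_two_left
      rw [Nat.totient_mul h2, hn, Nat.totient_prime_pow_succ Nat.prime_two]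
      have h3 := Nat.totient_le u
      calc 2 ^ m * (2 - 1) * Nat.totient u = 2 ^ m * Nat.totient u := by ring
        _ ≤ 2 ^ m * u := Nat.mul_le_mul_left _ h3
  have hDφ : (phi jp) D ≠ 0 := by
    rw [phi_apply]
    exact rdc_ne_zero hDn
  -- the conclusion
  have hsupp : ∀ i (a : ZMod n), (fun j => phi jp (χ (a * j))) ∉ X i →
      coef χ (phi jp) (x i) a = 0 := by
    intro i a ha
    by_contra h
    exact ha (mem_of_coef (phi jp) (hX i) (hx i) h)
  have hexp : ∀ i j, ∑ a : Ω i, coef χ (phi jp) (x i) a.1 * phi jp (χ (a.1 * j)) = x i j := by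
    intro i j
    rw [← expand hχ (phi jp) hnp (x i) j]
    have h1 := Finset.sum_subtype_of_mem (s := (Finset.univ.filter fun a : ZMod n =>
      (fun j => phi jp (χ (a * j))) ∈ X i)) (p := fun a : ZMod n =>
      (fun j => phi jp (χ (a * j))) ∈ X i)
      (fun a => coef χ (phi jp) (x i) a * phi jp (χ (a * j))) (by
        intro a ha
        exact (Finset.mem_filter.1 ha).2)
    have h2 : Finset.subtype (fun a : ZMod n => (fun j => phi jp (χ (a * j))) ∈ X i)
        (Finset.univ.filter fun a : ZMod n => (fun j => phi jp (χ (a * j))) ∈ X i) =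
        Finset.univ := by
      ext a
      simp [a.2]
    rw [h2] at h1
    rw [h1, Finset.sum_filter_of_ne]
    intro a _ hne
    by_contra h
    rw [hsupp i a h, zero_mul] at hne
    exact hne rfl
  let g : P → Kap p := fun q => coef χ (phi jp) (x q.1) q.2.1
  have hg : Matrix.vecMul g ((phi jp).mapMatrix (M.submatrix id col)) = 0 := by
    funext q
    obtain ⟨⟨⟨j, δ⟩, hj⟩, hcq⟩ : ∃ c, col q = c := ⟨_, rfl⟩
    have h1 : Matrix.vecMul g ((phi jp).mapMatrix (M.submatrix id col)) q =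
        ∑ q' : P, g q' * (phi jp (w q'.1 δ) * phi jp (χ (q'.2.1 * j))) := by
      unfold Matrix.vecMul dotProduct
      refine Finset.sum_congr rfl fun q' _ => ?_
      congr 1
      change phi jp (w q'.1 (col q).1.2 * χ (q'.2.1 * (col q).1.1)) = _
      rw [hcq, map_mul]
    rw [h1, Pi.zero_apply, Fintype.sum_sigma, ← hrel j δ hj]
    refine Finset.sum_congr rfl fun i _ => ?_
    have h2 : rdc (W i δ) = phi jp (w i δ) := by
      rw [phi_apply, ← hwf]
      rfl
    have h3 : rdc (W i δ) * x i j = ∑ a : Ω i, phi jp (w i δ) *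
        (coef χ (phi jp) (x i) a.1 * phi jp (χ (a.1 * j))) := by
      rw [← hexp i j, h2]
      exact Finset.mul_sum _ _ _
    refine Eq.trans ?_ h3.symm
    refine Finset.sum_congr rfl fun a _ => ?_
    change coef χ (phi jp) (x i) a.1 * (phi jp (w i δ) * phi jp (χ (a.1 * j))) = _
    ring
  have hdet : ((phi jp).mapMatrix (M.submatrix id col)).det ≠ 0 := by
    rw [← RingHom.map_det]
    exact hDφ
  have hg0 := Matrix.eq_zero_of_vecMul_eq_zero hdet hg
  intro i
  funext j
  rw [← hexp i j, Pi.zero_apply]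
  apply Finset.sum_eq_zero
  intro a _
  have h1 := congrFun hg0 ⟨i, a⟩
  have h2 : coef χ (phi jp) (x i) a.1 = 0 := h1
  rw [h2, zero_mul]

/-- **The linear algebra.** -/
theorem propC_all {n m : ℕ} (hn : n = 2 ^ (m + 1)) {I Δ : Type} [Fintype I] [Fintype Δ]
    (hodd : Odd (Fintype.card Δ)) (hI : Fintype.card I ≤ Fintype.card Δ)
    (hp2 : p = 2 ∨ (2 ^ m * Fintype.card Δ)! ^ (2 ^ m * Fintype.card Δ) < p) {W : I → Δ → ℂ_[p]}
    (hW : ∀ i δ, W i δ ^ Fintype.card Δ = 1)
    (horth : ∀ i i', i ≠ i' → ∑ δ, (W i δ)⁻¹ * W i' δ = 0) {S : ZMod n → Δ → Prop}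
    (hS : ∀ j δ, S j δ ∨ S (j + ((2 ^ m : ℕ) : ZMod n)) δ) :
    PropC (Kap p) n (2 ^ m) (fun i δ => rdc (W i δ)) S := by
  classical
  by_cases h2 : p = 2
  · subst h2
    have hWn : ∀ i δ, ‖W i δ‖ = 1 := fun i δ => norm_root hodd.pos (hW i δ)
    apply propC_two hn hS (fun i δ => rdc_ne_zero (hWn i δ))
    · intro i i' hne
      have h1 : ∀ δ, (rdc (W i δ))⁻¹ * rdc (W i' δ) = rdc ((W i δ)⁻¹ * W i' δ) := by
        intro δ
        rw [← rdc_inv (hWn i δ), rdc_mul (by rw [norm_inv, hWn, inv_one]) (hWn i' δ).le]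
      rw [Finset.sum_congr rfl (fun δ _ => h1 δ), ← rdc_sum, horth i i' hne, rdc_zero]
      intro δ _
      rw [norm_mul, norm_inv, hWn, hWn, inv_one, one_mul]
    · intro h
      rw [CharP.cast_eq_zero_iff (Kap 2) 2] at h
      exact (Nat.not_even_iff_odd.2 hodd) (even_iff_two_dvd.2 h)
  · have hbig := hp2.resolve_left h2
    have : NeZero (n * Fintype.card Δ) :=
      ⟨(Nat.mul_pos (by rw [hn]; exact pow_pos two_pos _) hodd.pos).ne'⟩
    have := cyc (n * Fintype.card Δ)
    exact propC_big_aux (E := CyclotomicField (n * Fintype.card Δ) ℚ) h2 hn hodd hI hbig hW horth hS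

end Pool.Agent.H512.E
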