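import Pool.Agent.H512.E.Four

set_option autoImplicit false
set_option linter.unusedSectionVars false

/-!
# The final form
-/

namespace Pool.Agent.H512.E

open NumberField TensorProduct Pool.Agent.W289.SL Pool.Agent.W332.SL6 Pool.Agent.H512.IT
open scoped Nat

variable {p : ℕ} [hp : Fact p.Prime]

section cm

variable {F K : Type} [Field F] [NumberField F] [IsTotallyReal F] [Field K] [NumberField K]
  [IsTotallyComplex K] [Algebra F K]

/-- the complex conjugation -/
lemma exists_conjK (hFK : Module.finrank F K = 2) : ∃ c : K ≃ₐ[ℚ] K, c * c = 1 ∧ c ≠ 1 ∧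
    ∀ b : K →+* ℂ, (starRingEnd ℂ).comp b = b.comp (c : K →+* K) := by
  classical
  have : Algebra.IsQuadraticExtension F K := ⟨hFK⟩
  have : FiniteDimensional F K := Module.finite_of_finrank_pos (by omega)
  have : IsGalois F K := inferInstance
  have hcard : Nat.card (K ≃ₐ[F] K) = 2 := by rw [IsGalois.card_aut_eq_finrank, hFK]
  obtain ⟨c, ⟨c₀, hc₀, hcc₀⟩, hcc, hc1⟩ := exists_c hFK
  refine ⟨c, hcc, hc1, ?_⟩
  intro b
  obtain ⟨τ, hτ⟩ := exists_aut (K := F) ((starRingEnd ℂ).comp b) b (by
    have h1 : ComplexEmbedding.IsReal (b.comp (algebraMap F K)) := by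
      rw [← InfinitePlace.isReal_mk_iff]
      exact IsTotallyReal.isReal _
    exact h1)
  have hτ1 : τ ≠ 1 := by
    rintro rfl
    refine IsTotallyComplex.complexEmbedding_not_isReal b ?_
    rw [ComplexEmbedding.isReal_iff]
    exact hτ
  obtain ⟨c', -, hcu⟩ := (Nat.card_eq_two_iff' (1 : K ≃ₐ[F] K)).1 hcard
  have h2 : τ = c₀ := (hcu τ hτ1).trans (hcu c₀ hc₀).symm
  rw [hτ, h2]
  ext y
  change b (c₀ y) = b (c y)
  rw [hcc₀]

end cm

section

variable {F K k H : Type} [Field F] [NumberField F] [IsTotallyReal F] [Field K] [NumberField K]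
  [IsTotallyComplex K] [Algebra F K] [Field k] [NumberField k] [Algebra k K]
  [Field H] [NumberField H] [Algebra K H] [Algebra k H] [IsScalarTower k K H]
  [FiniteDimensional k H] [FiniteDimensional K H] [FiniteDimensional k K] [IsGalois k K]
  [IsGalois k H] [IsGalois K H] [IsGalois ℚ K] [IsGalois ℚ H] [IsGalois ℚ k]

/-- `k` is totally complex -/
lemma totallyComplex_k (hFK : Module.finrank F K = 2) (hodd : Odd (Module.finrank k K)) :
    IsTotallyComplex k := by
  classical
  obtain ⟨c, hcc, hc1, hc⟩ := exists_conjK (F := F) (K := K) hFK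
  obtain ⟨ck, hck⟩ := exists_restr' (k := k) c
  have hck1 : ck ≠ 1 := ne_one_of_invol hodd hcc hc1 hck
  constructor
  intro v
  rw [← InfinitePlace.not_isReal_iff_isComplex]
  intro hv
  apply hck1
  obtain ⟨b', hb'⟩ : ∃ b' : K →+* ℂ, b'.comp (algebraMap k K) = v.embedding := by
    let := v.embedding.toAlgebra
    have : Algebra.IsAlgebraic k K := inferInstance
    let f : K →ₐ[k] ℂ := IsAlgClosed.lift
    exact ⟨f, f.comp_algebraMap⟩
  ext x
  apply v.embedding.injective
  have h1 := RingHom.congr_fun (hc b') (algebraMap k K x)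
  have h2 : star (b' (algebraMap k K x)) = b' (c (algebraMap k K x)) := h1
  have h3 : b' (algebraMap k K x) = v.embedding x := RingHom.congr_fun hb' x
  have h4 : b' (algebraMap k K (ck x)) = v.embedding (ck x) := RingHom.congr_fun hb' (ck x)
  rw [hck, h3, h4] at h2
  rw [← h2]
  have h5 := InfinitePlace.isReal_iff.1 hv
  have h6 := RingHom.congr_fun h5 x
  exact h6

lemma card_places_k [IsTotallyComplex k] {m : ℕ} (hk : Module.finrank ℚ k = 2 ^ (m + 1)) :
    Fintype.card (InfinitePlace k) = 2 ^ m := by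
  have h1 := IsTotallyComplex.finrank k
  have h1' := InfinitePlace.card_eq_nrRealPlaces_add_nrComplexPlaces k
  rw [IsTotallyComplex.nrRealPlaces_eq_zero k] at h1'
  rw [hk, pow_succ] at h1
  omega

/-- the imaginary quadratic case: the theorem of Baker and Brumer -/
theorem zero_of_quad (hpl : ∀ w w' : InfinitePlace k, w = w')
    (hab : ∀ a b : H ≃ₐ[k] H, a * b = b * a) {L : ℂ_[p] → ℂ_[p]} (hL : IsIwasawaLog p L)
    {x : UM p H} (h : ∀ σ : H →+* ℂ_[p], logLin hL σ x = 0) : x = 0 := by
  obtain ⟨φ₀⟩ : Nonempty (k →+* ℂ_[p]) := inferInstance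
  exact brumer_abelian hpl hab hL φ₀ (fun σ _ => h σ)

/-- the case of a cyclic quartic field `k` -/
theorem zero_of_quartic (hFK : Module.finrank F K = 2) (hk : Module.finrank ℚ k = 4)
    (hodd : Odd (Module.finrank k K)) {γk : k ≃ₐ[ℚ] k}
    (hγk : ∀ δ : k ≃ₐ[ℚ] k, δ ∈ Subgroup.zpowers γk)
    (hab : ∀ a b : H ≃ₐ[k] H, a * b = b * a) (hCM : ¬ IsCMField H)
    (χ : (H ≃ₐ[K] H) →* ℂ_[p]ˣ) (hχ : Function.Injective χ)
    {L : ℂ_[p] → ℂ_[p]} (hL : IsIwasawaLog p L) {x : UM p H} (hx : InChi χ x)
    (h0 : ∀ σ : H →+* ℂ_[p], logLin hL σ x = 0) : x = 0 := by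
  classical
  have hTk : IsTotallyComplex k := totallyComplex_k (F := F) hFK hodd
  obtain ⟨c, hcc, hc1, hc⟩ := exists_conjK (F := F) (K := K) hFK
  obtain ⟨ck, hck⟩ := exists_restr' (k := k) c
  have hck1 : ck ≠ 1 := ne_one_of_invol hodd hcc hc1 hck
  have hckk : ck * ck = 1 := by
    ext y
    apply (algebraMap k K).injective
    rw [AlgEquiv.mul_apply, ← hck, ← hck]
    exact congrArg (fun f : K ≃ₐ[ℚ] K => f (algebraMap k K y)) hcc
  have hk' : Module.finrank ℚ k = 2 ^ (1 + 1) := by rw [hk]; norm_num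
  have hckγ : ck = γk ^ 2 := by
    have h1 := invol_eq hγk (orderOf_genk hk' hγk) hckk hck1
    rw [h1]
    norm_num
  have hck' : ∀ x : k, c (algebraMap k K x) = algebraMap k K ((γk ^ 2) x) := by
    intro x
    rw [← hckγ]
    exact hck x
  -- the character is not trivial
  have hN1 : χ ≠ 1 := by
    rintro rfl
    apply hCM
    have h1 : ∀ h : H ≃ₐ[K] H, h = 1 := fun h => hχ (by simp)
    have h2 : Module.finrank K H = 1 := by
      rw [← IsGalois.card_aut_eq_finrank]
      exact Nat.card_eq_one_iff_unique.2 ⟨⟨fun a b => by rw [h1 a, h1 b]⟩, ⟨1⟩⟩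
    have h3 : Function.Surjective (algebraMap K H) := by
      have h4 : (⊥ : Subalgebra K H) = ⊤ := by
        rw [← Subalgebra.bot_eq_top_iff_finrank_eq_one] at h2
        exact h2
      intro y
      have h5 : y ∈ (⊤ : Subalgebra K H) := Algebra.mem_top
      rw [← h4] at h5
      exact Algebra.mem_bot.1 h5
    obtain ⟨g, hg'⟩ := AlgEquiv.restrictNormalHom_surjective (F := ℚ) (K₁ := K) H c
    have hg : ∀ y : K, g (algebraMap K H y) = algebraMap K H (c y) := by
      intro y
      rw [← hg']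
      exact (AlgEquiv.restrictNormal_commutes g K y).symm
    have hTC : IsTotallyComplex H := isTotallyComplex_of_algebra K H
    refine isCM_of_conj (g : H →+* H) ?_
    intro t y
    obtain ⟨z, rfl⟩ := h3 y
    have h6 := RingHom.congr_fun (hc (t.comp (algebraMap K H))) z
    have h7 : star (t (algebraMap K H z)) = t (algebraMap K H (c z)) := h6
    rw [h7]
    change t (g (algebraMap K H z)) = _
    rw [hg]
  obtain ⟨g, hg'⟩ := AlgEquiv.restrictNormalHom_surjective (F := ℚ) (K₁ := k) H γk
  have hgk : Lifts γk g := by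
    intro y
    rw [← hg']
    exact (AlgEquiv.restrictNormal_commutes g k y).symm
  let : CommGroup (H ≃ₐ[k] H) :=
    { (inferInstance : Group (H ≃ₐ[k] H)) with mul_comm := hab }
  have hlog : ∀ ψ : (H ≃ₐ[k] H) →* ℂ_[p]ˣ, ∀ σ : H →+* ℂ_[p], logLin hL σ (prj ψ x) = 0 := by
    intro ψ σ
    unfold prj
    rw [map_sum]
    refine Finset.sum_eq_zero fun b _ => ?_
    rw [map_smul, logLin_push, h0, smul_zero]
  have hcomm : ∀ ψ : (H ≃ₐ[k] H) →* ℂ_[p]ˣ, prj ψ x = 0 := by
    intro ψ
    by_cases hψ : ∀ h : H ≃ₐ[K] H, ψ (h.restrictScalars k) = χ h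
    · apply leopoldt_four hk hγk hc hck' hgk hCM (ψ := ψ) _ _ hL (prj_inChi ψ x) (hlog ψ)
      · rintro rfl
        apply hN1
        ext h
        rw [← hψ h]
        rfl
      · intro h hh h1
        let h' : H ≃ₐ[K] H := AlgEquiv.ofRingEquiv (f := (h : H ≃+* H)) hh
        have h2 : h'.restrictScalars k = h := by
          ext y
          rfl
        have h3 : χ h' = 1 := by rw [← hψ, h2, h1]
        have h4 : h' = 1 := hχ (by rw [h3, map_one])
        rw [← h2, h4]
        rfl
    · push Not at hψ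
      obtain ⟨h, hh⟩ := hψ
      have h1 := prj_inChi ψ x (h.restrictScalars k)
      rw [actLin_eq] at h1
      have h2 : push ((h.restrictScalars k : H ≃ₐ[k] H) : H →+* H) (prj ψ x) =
          ((χ h : ℂ_[p]ˣ) : ℂ_[p]) • prj ψ x := by
        unfold prj
        rw [map_sum, Finset.smul_sum]
        refine Finset.sum_congr rfl fun b _ => ?_
        have h3 : push ((h.restrictScalars k : H ≃ₐ[k] H) : H →+* H) (push (b : H →+* H) x) =
            push (b : H →+* H) (push (h : H →+* H) x) := by
          rw [push_push, push_push]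
          congr 2
          ext y
          exact congrArg (fun f : H ≃ₐ[k] H => f y) (hab (h.restrictScalars k) b)
        have h4 : push (h : H →+* H) x = ((χ h : ℂ_[p]ˣ) : ℂ_[p]) • x := by
          rw [← actLin_eq]
          exact hx h
        rw [map_smul, h3, h4, map_smul, smul_comm]
      rw [h2] at h1
      have h3 : (((χ h : ℂ_[p]ˣ) : ℂ_[p]) - ((ψ (h.restrictScalars k) : ℂ_[p]ˣ) : ℂ_[p])) •
          prj ψ x = 0 := by
        rw [sub_smul, h1, sub_self]
      rcases smul_eq_zero.1 h3 with h4 | h4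
      · exact absurd (Units.ext (sub_eq_zero.1 h4)).symm hh
      · exact h4
  have h1 := zero_of_chars (p := p) (fun a : H ≃ₐ[k] H => push (a : H →+* H) x)
    (fun ψ => hcomm ψ)
  have h2 : push ((1 : H ≃ₐ[k] H) : H →+* H) x = x := by
    have h3 : ∀ x : UM p H, push ((1 : H ≃ₐ[k] H) : H →+* H) x = x := by
      intro x
      induction x using TensorProduct.induction_on with
      | zero => simp
      | tmul c u =>
        rw [push_tmul]
        congr 1
      | add x y hx hy => rw [map_add, hx, hy]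
    exact h3 x
  rw [← h2]
  exact h1

end

end Pool.Agent.H512.E
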