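import Pool.Agent.H512.E.Main

set_option autoImplicit false
set_option linter.unusedSectionVars false

/-!
# Leopoldt's conjecture for characters of abelian extensions of cyclic quartic CM fields
-/

namespace Pool.Agent.H512.E

open NumberField TensorProduct Pool.Agent.W289.SL Pool.Agent.W332.SL6 Pool.Agent.H512.IT
open Pool.Agent.W254.PA (exists_theta)

variable {p : ℕ} [hp : Fact p.Prime]

section

variable {K k H : Type} [Field K] [NumberField K]
  [Field k] [NumberField k] [Algebra k K]
  [Field H] [NumberField H] [Algebra K H] [Algebra k H] [IsScalarTower k K H]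
  [FiniteDimensional k H] [FiniteDimensional K H] [FiniteDimensional k K] [IsGalois k K]
  [IsGalois k H] [IsGalois K H] [IsGalois ℚ K] [IsGalois ℚ H] [IsGalois ℚ k]
  [IsTotallyComplex k] [IsTotallyComplex K]

/-- Let `k` be a cyclic quartic CM field, `H / k` Galois, and `ψ` a character of `Gal(H / k)`,
injective on `Gal(H / K)` and not trivial. If `H` is not a CM field then an element of the `ψ`-part
all of whose logarithms vanish is zero. -/
theorem leopoldt_four (hk : Module.finrank ℚ k = 4) {γk : k ≃ₐ[ℚ] k}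
    (hγk : ∀ δ : k ≃ₐ[ℚ] k, δ ∈ Subgroup.zpowers γk) {c : K ≃ₐ[ℚ] K}
    (hc : ∀ b : K →+* ℂ, (starRingEnd ℂ).comp b = b.comp (c : K →+* K))
    (hck : ∀ x : k, c (algebraMap k K x) = algebraMap k K ((γk ^ 2) x))
    {g : H ≃ₐ[ℚ] H} (hgk : Lifts γk g) (hCM : ¬ IsCMField H)
    {ψ : (H ≃ₐ[k] H) →* ℂ_[p]ˣ} (hψ1 : ψ ≠ 1)
    (hinj : ∀ h : H ≃ₐ[k] H, (∀ x : K, h (algebraMap K H x) = algebraMap K H x) → ψ h = 1 → h = 1)
    {L : ℂ_[p] → ℂ_[p]} (hL : IsIwasawaLog p L) {y : UM p H} (hy : InChi ψ y)
    (h0 : ∀ σ : H →+* ℂ_[p], logLin hL σ y = 0) : y = 0 := by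
  classical
  by_contra hy0
  obtain ⟨θ⟩ := exists_theta p
  have hord : orderOf γk = 4 := by
    rw [← hk, ← IsGalois.card_aut_eq_finrank, orderOf_eq_card_of_forall_mem_zpowers hγk]
  let ck : k →+* k := ((γk ^ 2 : k ≃ₐ[ℚ] k) : k →+* k)
  have hconj : ∀ b : k →+* ℂ, (starRingEnd ℂ).comp b = b.comp ck := by
    intro b
    obtain ⟨b', hb'⟩ : ∃ b' : K →+* ℂ, b'.comp (algebraMap k K) = b := by
      let := b.toAlgebra
      have : Algebra.IsAlgebraic k K := inferInstance
      let f : K →ₐ[k] ℂ := IsAlgClosed.lift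
      exact ⟨f, f.comp_algebraMap⟩
    ext x
    have h1 := RingHom.congr_fun (hc b') (algebraMap k K x)
    have h2 : star (b' (algebraMap k K x)) = b' (c (algebraMap k K x)) := h1
    change star (b x) = b ((γk ^ 2) x)
    rw [← hb']
    change star (b' (algebraMap k K x)) = b' (algebraMap k K ((γk ^ 2) x))
    rw [h2, hck]
  obtain ⟨s⟩ : Nonempty (H →+* ℂ_[p]) := inferInstance
  let σ : Fin 3 → (H →+* ℂ_[p]) := ![s, s.comp (g : H →+* H),
    s.comp ((g ^ 3 : H ≃ₐ[ℚ] H) : H →+* H)]
  let τ : Fin 3 → (H →+* H) := ![RingHom.id H, (g : H →+* H), ((g ^ 3 : H ≃ₐ[ℚ] H) : H →+* H)]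
  have hτ : ∀ j, s.comp (τ j) = σ j := by
    intro j
    fin_cases j
    · exact RingHom.comp_id s
    · rfl
    · rfl
  have h12 : InfinitePlace.mk (((θ : ℂ_[p] →+* ℂ).comp (σ 0)).comp (algebraMap k H)) ≠
      InfinitePlace.mk (((θ : ℂ_[p] →+* ℂ).comp (σ 1)).comp (algebraMap k H)) := by
    intro h
    rcases InfinitePlace.mk_eq_iff.1 h with h1 | h1
    · have h2 : γk = 1 := by
        ext x
        have h3 := RingHom.congr_fun h1 x
        have h4 : θ (s (algebraMap k H x)) = θ (s (g (algebraMap k H x))) := h3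
        have h5 := s.injective (θ.injective h4)
        rw [hgk] at h5
        exact ((algebraMap k H).injective h5).symm
      rw [h2, orderOf_one] at hord
      omega
    · have h2 : γk = 1 := by
        ext x
        have h3 := RingHom.congr_fun h1 x
        have h4 : star (θ (s (algebraMap k H x))) = θ (s (g (algebraMap k H x))) := h3
        have h5 := RingHom.congr_fun (hconj (((θ : ℂ_[p] →+* ℂ).comp s).comp (algebraMap k H))) x
        have h6 : star (θ (s (algebraMap k H x))) = θ (s (algebraMap k H ((γk ^ 2) x))) := h5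
        rw [h6] at h4
        have h7 := s.injective (θ.injective h4)
        rw [hgk] at h7
        have h8 := (algebraMap k H).injective h7
        rw [pow_two, AlgEquiv.mul_apply] at h8
        exact γk.injective h8
      rw [h2, orderOf_one] at hord
      omega
  have hpl : ∀ w : InfinitePlace k,
      w = InfinitePlace.mk (((θ : ℂ_[p] →+* ℂ).comp (σ 0)).comp (algebraMap k H)) ∨
      w = InfinitePlace.mk (((θ : ℂ_[p] →+* ℂ).comp (σ 1)).comp (algebraMap k H)) := by
    have h1 := IsTotallyComplex.finrank k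
    rw [hk] at h1
    have h1' := InfinitePlace.card_eq_nrRealPlaces_add_nrComplexPlaces k
    rw [IsTotallyComplex.nrRealPlaces_eq_zero k] at h1'
    have h2 : Fintype.card (InfinitePlace k) = 2 := by omega
    have h3 : ({InfinitePlace.mk (((θ : ℂ_[p] →+* ℂ).comp (σ 0)).comp (algebraMap k H)),
        InfinitePlace.mk (((θ : ℂ_[p] →+* ℂ).comp (σ 1)).comp (algebraMap k H))} :
        Finset (InfinitePlace k)) = Finset.univ := by
      apply Finset.eq_univ_of_card
      rw [Finset.card_pair h12, h2]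
    intro w
    have h4 : w ∈ ({InfinitePlace.mk (((θ : ℂ_[p] →+* ℂ).comp (σ 0)).comp (algebraMap k H)),
        InfinitePlace.mk (((θ : ℂ_[p] →+* ℂ).comp (σ 1)).comp (algebraMap k H))} :
        Finset (InfinitePlace k)) := by
      rw [h3]; exact Finset.mem_univ w
    simpa using h4
  obtain ⟨g0, hg0⟩ := push_eq_step θ hψ1 ck hconj hL σ h12 hpl (by
      ext x
      change s ((g ^ 3) (algebraMap k H x)) = s (g (algebraMap k H ((γk ^ 2) x)))
      rw [hgk.pow 3, hgk]
      congr 2) y y hy hy0 hy hy0 (h0 _) (h0 _) (h0 _) (h0 _) H s τ hτ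
  -- the automorphism acting trivially on the `ψ`-part
  let g0' : H ≃ₐ[ℚ] H := g0.restrictScalars ℚ
  let κ : H ≃ₐ[ℚ] H := (g * g0')⁻¹ * g ^ 3
  have hκ : ∀ x : UM p H, InChi ψ x → push (κ : H →+* H) x = x := by
    intro x hx
    have h1 : push ((g ^ 3 : H ≃ₐ[ℚ] H) : H →+* H) x =
        push ((g : H →+* H).comp (g0 : H →+* H)) x := hg0 x hx
    have h2 : (κ : H →+* H) = (((g * g0')⁻¹ : H ≃ₐ[ℚ] H) : H →+* H).comp
        ((g ^ 3 : H ≃ₐ[ℚ] H) : H →+* H) := rfl
    rw [h2, ← push_push, h1, push_push]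
    have h3 : ((((g * g0')⁻¹ : H ≃ₐ[ℚ] H) : H →+* H).comp
        ((g : H →+* H).comp (g0 : H →+* H))) = RingHom.id H := by
      ext z
      change (g * g0')⁻¹ (g (g0 z)) = z
      have h4 : g (g0 z) = (g * g0') z := rfl
      rw [h4, ← AlgEquiv.mul_apply, inv_mul_cancel]
      rfl
    rw [h3]
    have h4 : ∀ x : UM p H, push (RingHom.id H) x = x := by
      intro x
      induction x using TensorProduct.induction_on with
      | zero => simp
      | tmul c u =>
        rw [push_tmul]
        congr 1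
      | add x y hx hy => rw [map_add, hx, hy]
    exact h4 x
  have hκk : ∀ x : k, κ (algebraMap k H x) = algebraMap k H ((γk ^ 2) x) := by
    intro x
    have h1 : (g * g0') (κ (algebraMap k H x)) = (g ^ 3) (algebraMap k H x) := by
      have h2 : (g * g0') * κ = g ^ 3 := mul_inv_cancel_left _ _
      exact congrArg (fun f : H ≃ₐ[ℚ] H => f (algebraMap k H x)) h2
    apply (g * g0').injective
    rw [h1, hgk.pow 3]
    change _ = g (g0 (algebraMap k H ((γk ^ 2) x)))
    rw [g0.commutes, hgk]
    congr 1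
  -- the complex conjugations
  have hex : ∀ t : H →+* ℂ, ∃ gt : H ≃ₐ[k] H, (starRingEnd ℂ).comp t =
      (t.comp (κ : H →+* H)).comp (gt : H →+* H) := by
    intro t
    apply exists_aut
    ext x
    have h1 := RingHom.congr_fun (hconj (t.comp (algebraMap k H))) x
    have h2 : star (t (algebraMap k H x)) = t (algebraMap k H ((γk ^ 2) x)) := h1
    change star (t (algebraMap k H x)) = t (κ (algebraMap k H x))
    rw [h2, hκk]
  choose gt hgt using hex
  have hψgt : ∀ t, ψ (gt t) = 1 := by
    intro t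
    obtain ⟨u, hu⟩ := exists_ne θ hψ1 _ _ h12 t
    have hx := xu_inChi (p := p) ψ u
    have h1 : lam θ t (xu ψ u) = ((ψ (gt t) : ℂ_[p]ˣ) : ℂ_[p]) * lam θ t (xu ψ u) := by
      calc lam θ t (xu ψ u) = lam θ ((starRingEnd ℂ).comp t) (xu ψ u) := (lam_conj θ t _).symm
        _ = ((ψ (gt t) : ℂ_[p]ˣ) : ℂ_[p]) * lam θ (t.comp (κ : H →+* H)) (xu ψ u) := by
          rw [hgt, lam_inChi θ hx]
        _ = _ := by rw [← lam_push, hκ _ hx]
    apply Units.ext
    apply mul_right_cancel₀ hu
    rw [← h1, Units.val_one, one_mul]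
  obtain ⟨t0⟩ : Nonempty (H →+* ℂ) := inferInstance
  have hsame : ∀ t, gt t = gt t0 := by
    intro t
    have hK : ∀ t, ∀ x : K, κ (gt t (algebraMap K H x)) = algebraMap K H (c x) := by
      intro t x
      apply t.injective
      have h1 := RingHom.congr_fun (hgt t) (algebraMap K H x)
      have h2 : star (t (algebraMap K H x)) = t (κ (gt t (algebraMap K H x))) := h1
      have h3 := RingHom.congr_fun (hc (t.comp (algebraMap K H))) x
      have h4 : star (t (algebraMap K H x)) = t (algebraMap K H (c x)) := h3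
      rw [← h2, h4]
    have h1 : (gt t0)⁻¹ * gt t = 1 := by
      apply hinj
      · intro x
        apply (gt t0).injective
        rw [AlgEquiv.mul_apply, ← AlgEquiv.mul_apply (gt t0), mul_inv_cancel]
        change gt t (algebraMap K H x) = _
        apply κ.injective
        rw [hK, hK]
      · rw [map_mul, map_inv, hψgt, hψgt, inv_one, one_mul]
    exact (inv_mul_eq_one.1 h1).symm
  have hTC : IsTotallyComplex H := isTotallyComplex_of_algebra K H
  refine hCM (isCM_of_conj ((κ : H →+* H).comp (gt t0 : H →+* H)) ?_)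
  intro t z
  have h1 := RingHom.congr_fun (hgt t) z
  have h2 : star (t z) = t (κ (gt t z)) := h1
  rw [h2, hsame t]
  rfl

end

end Pool.Agent.H512.E
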