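import Pool.Agent.H512.IT.OddK

set_option autoImplicit false
set_option linter.unusedSectionVars false

/-!
# Abelian CM fields whose Galois group has a cyclic Sylow 2-subgroup
-/

namespace Pool.Agent.H512.E

open NumberField TensorProduct Pool.Agent.W289.SL Pool.Agent.W332.SL6 Pool.Agent.H512.IT

section grp

variable {G : Type} [Group G] {γ : G} {m : ℕ}

lemma odd_pow_invol {c : G} (hc : c * c = 1) {a : ℕ} (ha : Odd a) : c ^ a = c := by
  obtain ⟨b, rfl⟩ := ha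
  rw [pow_succ, pow_mul, pow_two, hc, one_pow, one_mul]

lemma pow_to_invol (hγ : ∀ δ : G, δ ∈ Subgroup.zpowers γ) (hord : orderOf γ = 2 ^ (m + 1))
    {δ : G} (hδ : δ ≠ 1) : ∃ e : ℕ, δ ^ e = γ ^ 2 ^ m := by
  have hfin : IsOfFinOrder γ := orderOf_pos_iff.1 (by rw [hord]; exact pow_pos two_pos _)
  obtain ⟨a, ha⟩ : ∃ a : ℕ, γ ^ a = δ := by
    have h1 := hγ δ
    rw [← hfin.mem_powers_iff_mem_zpowers] at h1
    exact (Submonoid.mem_powers_iff _ _).1 h1
  have ha0 : a ≠ 0 := by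
    rintro rfl
    rw [pow_zero] at ha
    exact hδ ha.symm
  obtain ⟨v, b, hb, hab⟩ := Nat.exists_eq_two_pow_mul_odd ha0
  have hv : v ≤ m := by
    by_contra hcon
    push Not at hcon
    apply hδ
    rw [← ha, ← orderOf_dvd_iff_pow_eq_one, hord, hab]
    exact dvd_mul_of_dvd_left (pow_dvd_pow 2 hcon) _
  have hinv : (γ ^ 2 ^ m) * (γ ^ 2 ^ m) = 1 := by
    rw [← pow_add, ← two_mul, ← pow_succ', ← hord, pow_orderOf_eq_one]
  refine ⟨2 ^ (m - v), ?_⟩
  rw [← ha, ← pow_mul, hab]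
  have h1 : 2 ^ v * b * 2 ^ (m - v) = 2 ^ m * b := by
    have h2 : 2 ^ v * 2 ^ (m - v) = 2 ^ m := by
      rw [← pow_add, Nat.add_sub_cancel' hv]
    rw [← h2]
    ring
  rw [h1, pow_mul, odd_pow_invol hinv hb]

lemma gen_pow_ne_one (hord : orderOf γ = 2 ^ (m + 1)) : γ ^ 2 ^ m ≠ 1 := by
  intro h
  have h1 := orderOf_dvd_of_pow_eq_one h
  rw [hord] at h1
  have h2 := Nat.le_of_dvd (pow_pos two_pos _) h1
  rw [pow_succ] at h2
  have h3 : 0 < 2 ^ m := pow_pos two_pos _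
  omega

lemma invol_eq (hγ : ∀ δ : G, δ ∈ Subgroup.zpowers γ) (hord : orderOf γ = 2 ^ (m + 1))
    {c : G} (hcc : c * c = 1) (hc : c ≠ 1) : c = γ ^ 2 ^ m := by
  obtain ⟨e, he⟩ := pow_to_invol hγ hord hc
  rcases Nat.even_or_odd e with h | h
  · exfalso
    obtain ⟨b, rfl⟩ := h
    rw [← two_mul, pow_mul, pow_two, hcc, one_pow] at he
    exact gen_pow_ne_one hord he.symm
  · rw [odd_pow_invol hcc h] at he
    exact he

end grp

variable {p : ℕ} [hp : Fact p.Prime]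

section

variable {F K k : Type} [Field F] [NumberField F] [Field K] [NumberField K] [Algebra F K]
  [Field k] [NumberField k] [Algebra k K] [IsGalois ℚ K] [IsGalois ℚ k] [IsGalois k K]

/-- the action on `k` -/
lemma exists_restr' (δ : K ≃ₐ[ℚ] K) :
    ∃ δk : k ≃ₐ[ℚ] k, ∀ x : k, δ (algebraMap k K x) = algebraMap k K (δk x) :=
  ⟨AlgEquiv.restrictNormal δ k, fun x => (AlgEquiv.restrictNormal_commutes δ k x).symm⟩

lemma restr_pow {δ : K ≃ₐ[ℚ] K} {δk : k ≃ₐ[ℚ] k}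
    (h : ∀ x : k, δ (algebraMap k K x) = algebraMap k K (δk x)) (e : ℕ) (x : k) :
    (δ ^ e) (algebraMap k K x) = algebraMap k K ((δk ^ e) x) := by
  induction e generalizing x with
  | zero => rfl
  | succ e ih => rw [pow_succ, pow_succ, AlgEquiv.mul_apply, AlgEquiv.mul_apply, h, ih]

/-- a lift of the generator of the same order -/
lemma exists_gen {n : ℕ} (hk : Module.finrank ℚ k = n)
    (hcop : Nat.Coprime n (Module.finrank k K)) (γk : k ≃ₐ[ℚ] k) :
    ∃ γ : K ≃ₐ[ℚ] K, (∀ x : k, γ (algebraMap k K x) = algebraMap k K (γk x)) ∧ γ ^ n = 1 := by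
  obtain ⟨γ', hγ'⟩ := AlgEquiv.restrictNormalHom_surjective (F := ℚ) (K₁ := k) K γk
  have h1 : ∀ x : k, γ' (algebraMap k K x) = algebraMap k K (γk x) := by
    intro x
    rw [← hγ']
    exact (AlgEquiv.restrictNormal_commutes γ' k x).symm
  obtain ⟨e, he1, he2⟩ := Nat.chineseRemainder hcop 1 0
  refine ⟨γ' ^ e, fun x => ?_, ?_⟩
  · rw [restr_pow h1]
    have h2 : γk ^ n = 1 := by
      rw [← hk, ← IsGalois.card_aut_eq_finrank]
      exact pow_card_eq_one'
    have h3 : γk ^ e = γk ^ 1 := by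
      rw [pow_eq_pow_iff_modEq]
      exact he1.of_dvd (orderOf_dvd_of_pow_eq_one h2)
    rw [h3, pow_one]
  · have h2 : Module.finrank k K ∣ e := (Nat.modEq_zero_iff_dvd).1 he2
    obtain ⟨b, hb⟩ := h2
    have h3 : γ' ^ (n * Module.finrank k K) = 1 := by
      rw [← hk, Module.finrank_mul_finrank ℚ k K, ← IsGalois.card_aut_eq_finrank]
      exact pow_card_eq_one'
    have h4 : e * n = (n * Module.finrank k K) * b := by
      rw [hb]
      ring
    rw [← pow_mul, h4, pow_mul, h3, one_pow]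

variable {m : ℕ}

lemma orderOf_genk (hk : Module.finrank ℚ k = 2 ^ (m + 1)) {γk : k ≃ₐ[ℚ] k}
    (hγk : ∀ δ : k ≃ₐ[ℚ] k, δ ∈ Subgroup.zpowers γk) : orderOf γk = 2 ^ (m + 1) := by
  rw [← hk, ← IsGalois.card_aut_eq_finrank, orderOf_eq_card_of_forall_mem_zpowers hγk]

/-- the complex conjugation is a power of the lift of the generator -/
lemma conj_eq_pow (hk : Module.finrank ℚ k = 2 ^ (m + 1)) (hodd : Odd (Module.finrank k K))
    (hKab : ∀ a b : K ≃ₐ[ℚ] K, a * b = b * a) {γk : k ≃ₐ[ℚ] k}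
    (hγk : ∀ δ : k ≃ₐ[ℚ] k, δ ∈ Subgroup.zpowers γk) {γ : K ≃ₐ[ℚ] K}
    (hγ : ∀ x : k, γ (algebraMap k K x) = algebraMap k K (γk x)) (hγn : γ ^ 2 ^ (m + 1) = 1)
    {c : K ≃ₐ[ℚ] K} (hcc : c * c = 1) (hc : c ≠ 1) : c = γ ^ 2 ^ m := by
  obtain ⟨ck, hck⟩ := exists_restr' (k := k) c
  have hck1 : ck ≠ 1 := ne_one_of_invol hodd hcc hc hck
  have hckk : ck * ck = 1 := by
    ext y
    apply (algebraMap k K).injective
    rw [AlgEquiv.mul_apply, ← hck, ← hck]
    exact congrArg (fun f : K ≃ₐ[ℚ] K => f (algebraMap k K y)) hcc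
  have h1 := invol_eq hγk (orderOf_genk hk hγk) hckk hck1
  have h2 : ∀ x : k, (c * γ ^ 2 ^ m) (algebraMap k K x) = algebraMap k K x := by
    intro x
    rw [AlgEquiv.mul_apply, restr_pow hγ, ← h1, hck, ← AlgEquiv.mul_apply, hckk]
    rfl
  have h3 := pow_of_fix h2
  have h4 : (c * γ ^ 2 ^ m) * (c * γ ^ 2 ^ m) = 1 := by
    have h5 : Commute c (γ ^ 2 ^ m) := hKab _ _
    have h6 := h5.mul_pow 2
    rw [pow_two, pow_two, hcc, one_mul, ← pow_mul, ← pow_succ, hγn] at h6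
    exact h6
  rw [odd_pow_invol h4 hodd] at h3
  have h5 : γ ^ 2 ^ m = c := by
    have h6 : c * (c * γ ^ 2 ^ m) = c * 1 := by rw [h3]
    rw [← mul_assoc, hcc, one_mul, mul_one] at h6
    exact h6
  exact h5.symm

/-- isometric automorphisms of `ℂ_p` act trivially on the image of `k` -/
lemma fix_k' (hFK : Module.finrank F K = 2) (hk : Module.finrank ℚ k = 2 ^ (m + 1))
    (hodd : Odd (Module.finrank k K)) (hKab : ∀ a b : K ≃ₐ[ℚ] K, a * b = b * a)
    {γk : k ≃ₐ[ℚ] k} (hγk : ∀ δ : k ≃ₐ[ℚ] k, δ ∈ Subgroup.zpowers γk)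
    {S : Set (K →+* ℂ_[p])} (hS : IsCMType p F K S) (hord : Ordinary S) {τ : ℂ_[p] ≃+* ℂ_[p]}
    (hτ : Isom τ) (σ : K →+* ℂ_[p]) (x : k) :
    τ (σ (algebraMap k K x)) = σ (algebraMap k K x) := by
  classical
  obtain ⟨c, ⟨c₀, hc₀, hcc₀⟩, hcc, hc1⟩ := exists_c hFK
  have hccx : ∀ y, c (c y) = y := fun y => congrArg (fun f : K ≃ₐ[ℚ] K => f y) hcc
  have hSc := hS c₀ hc₀
  obtain ⟨ck, hck⟩ := exists_restr' (k := k) c
  have hck1 : ck ≠ 1 := ne_one_of_invol hodd hcc hc1 hck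
  have hckk : ck * ck = 1 := by
    ext y
    apply (algebraMap k K).injective
    rw [AlgEquiv.mul_apply, ← hck, ← hck]
    exact congrArg (fun f : K ≃ₐ[ℚ] K => f (algebraMap k K y)) hcc
  have hckγ := invol_eq hγk (orderOf_genk hk hγk) hckk hck1
  have main : ∀ σ ∈ S, ∀ x : k, τ (σ (algebraMap k K x)) = σ (algebraMap k K x) := by
    intro σ hσ x
    obtain ⟨δ, hδ⟩ := exists_autQ ((τ : ℂ_[p] →+* ℂ_[p]).comp σ) σ
    have hδ' : ∀ y, τ (σ y) = σ (δ y) := hδ
    obtain ⟨δk, hδk⟩ := exists_restr' (k := k) δ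
    have h1 : δk = 1 := by
      by_contra hne
      obtain ⟨e, he⟩ := pow_to_invol hγk (orderOf_genk hk hγk) hne
      rw [← hckγ] at he
      have h3 : ∀ x : k, (δ ^ e * c) (algebraMap k K x) = algebraMap k K x := by
        intro x
        rw [AlgEquiv.mul_apply, hck, restr_pow hδk, he, ← AlgEquiv.mul_apply, hckk]
        rfl
      have h4 := pow_of_fix h3
      have h5 : Commute (δ ^ e) c := hKab _ _
      rw [h5.mul_pow, odd_pow_invol hcc hodd, ← pow_mul] at h4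
      have h7 : δ ^ (e * Module.finrank k K) = c := by
        rw [mul_eq_one_iff_eq_inv] at h4
        rw [h4, inv_eq_of_mul_eq_one_right hcc]
      have h8 : ∀ i y, ‖σ ((δ ^ i) y)‖ = ‖σ y‖ := by
        intro i
        induction i with
        | zero => intro y; rfl
        | succ i ih =>
          intro y
          rw [pow_succ, AlgEquiv.mul_apply, ih, ← hδ', hτ]
      have h9 : σ.comp (c₀ : K →+* K) ∈ S := by
        apply hord σ hσ
        intro y
        change ‖σ (c₀ y)‖ = _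
        rw [← hcc₀, ← h7, h8]
      exact (hSc σ).1 hσ h9
    rw [hδ', hδk, h1]
    rfl
  by_cases hσ : σ ∈ S
  · exact main σ hσ x
  · have h1 : σ.comp (c₀ : K →+* K) ∈ S := by
      by_contra h
      exact hσ ((hSc σ).2 h)
    have h2 := main _ h1 (ck x)
    have h3 : (σ.comp (c₀ : K →+* K)) (algebraMap k K (ck x)) = σ (algebraMap k K x) := by
      change σ (c₀ (algebraMap k K (ck x))) = _
      rw [← hcc₀, ← hck, hccx]
    rw [h3] at h2
    exact h2

end

end Pool.Agent.H512.E
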