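import Mathlib

set_option autoImplicit false
set_option linter.unusedSectionVars false

/-!
# Shift invariant spaces of functions on a cyclic group of 2-power order in characteristic two
-/

namespace Pool.Agent.H512.E

open Polynomial

section

variable {κ : Type} [Field κ] {n : ℕ}

/-- the shift -/
def shift (κ : Type) [Field κ] (n : ℕ) : Module.End κ (ZMod n → κ) :=
  LinearMap.funLeft κ κ (fun j => j + 1)

lemma shift_apply (x : ZMod n → κ) (j : ZMod n) : shift κ n x j = x (j + 1) := rfl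

lemma shift_pow_apply (i : ℕ) (x : ZMod n → κ) (j : ZMod n) :
    (shift κ n ^ i) x j = x (j + i) := by
  induction i generalizing j with
  | zero => simp
  | succ i ih =>
    rw [pow_succ', Module.End.mul_apply, shift_apply, ih]
    congr 1
    push_cast
    ring

lemma sub_one_pow {V : Type} [AddCommGroup V] [Module κ V] [CharP κ 2] (f : Module.End κ V)
    (m : ℕ) : (f - 1) ^ 2 ^ m = f ^ 2 ^ m - 1 := by
  have h : (X - 1 : κ[X]) ^ 2 ^ m = X ^ 2 ^ m - 1 := by
    rw [sub_pow_char_pow, one_pow]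
  have h1 := congrArg (aeval f) h
  simpa using h1

lemma sub_one_pow_iff {V : Type} [AddCommGroup V] [Module κ V] [CharP κ 2] (f : Module.End κ V)
    (m : ℕ) : (f - 1) ^ 2 ^ m = 0 ↔ f ^ 2 ^ m = 1 := by
  rw [sub_one_pow]
  constructor
  · intro h
    ext1 v
    have h1 := congrArg (fun g : Module.End κ V => g v) h
    have h2 : (f ^ 2 ^ m) v - (1 : Module.End κ V) v = 0 := h1
    exact sub_eq_zero.1 h2
  · intro h
    ext1 v
    change (f ^ 2 ^ m) v - (1 : Module.End κ V) v = 0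
    rw [h, sub_self]

/-- in characteristic two a shift invariant space of functions on the cyclic group of order `2 h`,
`h = 2 ^ m`, of dimension at most `h`, consists of functions of period `h` -/
theorem periodic [CharP κ 2] {m : ℕ} (hn : n = 2 ^ (m + 1)) (X : Submodule κ (ZMod n → κ))
    (hX : ∀ f ∈ X, shift κ n f ∈ X) (hdim : Module.finrank κ X ≤ 2 ^ m) {x : ZMod n → κ}
    (hx : x ∈ X) (j : ZMod n) : x (j + ((2 ^ m : ℕ) : ZMod n)) = x j := by
  have : NeZero n := ⟨by rw [hn]; exact (pow_pos two_pos _).ne'⟩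
  let N : Module.End κ X := (shift κ n).restrict hX - 1
  have hpow : ∀ i : ℕ, ∀ y : X, ((((shift κ n).restrict hX) ^ i) y : ZMod n → κ) =
      (shift κ n ^ i) (y : ZMod n → κ) := by
    intro i
    induction i with
    | zero => intro y; simp
    | succ i ih =>
      intro y
      rw [pow_succ, pow_succ, Module.End.mul_apply, Module.End.mul_apply, ih]
      rfl
  have hN : N ^ 2 ^ (m + 1) = 0 := by
    rw [sub_one_pow_iff]
    ext y j
    rw [hpow, shift_pow_apply, ← hn, ZMod.natCast_self, add_zero]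
    rfl
  have hnil : IsNilpotent N := ⟨_, hN⟩
  have h1 : N ^ Module.finrank κ X = 0 := by
    have h2 := (LinearMap.isNilpotent_iff_charpoly N).1 hnil
    have h3 := LinearMap.aeval_self_charpoly N
    rw [h2, map_pow, aeval_X] at h3
    exact h3
  have h2 : N ^ 2 ^ m = 0 := pow_eq_zero_of_le hdim h1
  rw [sub_one_pow_iff] at h2
  have h3 := congrArg (fun f : Module.End κ X => (f ⟨x, hx⟩ : ZMod n → κ) j) h2
  rw [hpow, shift_pow_apply] at h3
  exact h3

end

/-- The property that the relations on `S` between functions in shift invariant spaces of dimension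
at most `h` are trivial. -/
def PropC (κ : Type) [Field κ] (n h : ℕ) {I Δ : Type} [Fintype I] (W : I → Δ → κ)
    (S : ZMod n → Δ → Prop) : Prop :=
  ∀ X : I → Submodule κ (ZMod n → κ), (∀ i, ∀ f ∈ X i, shift κ n f ∈ X i) →
    (∀ i, Module.finrank κ (X i) ≤ h) → ∀ x : I → ZMod n → κ, (∀ i, x i ∈ X i) →
    (∀ j δ, S j δ → ∑ i, W i δ * x i j = 0) → ∀ i, x i = 0

/-- Fourier inversion -/
lemma fourier {κ : Type} [Field κ] {I Δ : Type} [Fintype I] [Fintype Δ] {W : I → Δ → κ}
    (hW : ∀ i δ, W i δ ≠ 0) (horth : ∀ i i', i ≠ i' → ∑ δ, (W i δ)⁻¹ * W i' δ = 0)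
    (hcard : (Fintype.card Δ : κ) ≠ 0) {y : I → κ} (h : ∀ δ, ∑ i, W i δ * y i = 0) (i : I) :
    y i = 0 := by
  classical
  have h1 : ∑ δ, (W i δ)⁻¹ * ∑ i', W i' δ * y i' = 0 :=
    Finset.sum_eq_zero fun δ _ => by rw [h, mul_zero]
  have h2 : ∑ δ, (W i δ)⁻¹ * ∑ i', W i' δ * y i' =
      ∑ i', (∑ δ, (W i δ)⁻¹ * W i' δ) * y i' := by
    simp only [Finset.mul_sum, Finset.sum_mul]
    rw [Finset.sum_comm]
    refine Finset.sum_congr rfl fun i' _ => Finset.sum_congr rfl fun δ _ => ?_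
    ring
  rw [h2, Finset.sum_eq_single i] at h1
  · have h3 : ∑ δ, (W i δ)⁻¹ * W i δ = (Fintype.card Δ : κ) := by
      rw [Finset.sum_congr rfl (fun δ _ => inv_mul_cancel₀ (hW i δ)), Finset.sum_const,
        Finset.card_univ, nsmul_eq_mul, mul_one]
    rw [h3] at h1
    exact (mul_eq_zero.1 h1).resolve_left hcard
  · intro i' _ hne
    rw [horth i i' hne.symm, zero_mul]
  · intro h
    exact absurd (Finset.mem_univ _) h

theorem propC_two {κ : Type} [Field κ] [CharP κ 2] {n m : ℕ} (hn : n = 2 ^ (m + 1))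
    {I Δ : Type} [Fintype I] [Fintype Δ] {W : I → Δ → κ} {S : ZMod n → Δ → Prop}
    (hS : ∀ j δ, S j δ ∨ S (j + ((2 ^ m : ℕ) : ZMod n)) δ)
    (hW : ∀ i δ, W i δ ≠ 0) (horth : ∀ i i', i ≠ i' → ∑ δ, (W i δ)⁻¹ * W i' δ = 0)
    (hcard : (Fintype.card Δ : κ) ≠ 0) : PropC κ n (2 ^ m) W S := by
  intro X hX hdim x hx hrel i
  funext j
  have hper : ∀ i j, x i (j + ((2 ^ m : ℕ) : ZMod n)) = x i j := fun i j =>
    periodic hn (X i) (hX i) (hdim i) (hx i) j
  apply fourier hW horth hcard (y := fun i => x i j)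
  intro δ
  rcases hS j δ with h | h
  · exact hrel j δ h
  · have h1 := hrel _ δ h
    simp only [hper] at h1
    exact h1

/-- **Twisting.** -/
theorem PropC.twist {κ : Type} [Field κ] {n h : ℕ} [NeZero n] (hroot : ∀ y : κ, ∃ z, z ^ n = y)
    {I Δ : Type} [Fintype I] {W : I → Δ → κ} {S : ZMod n → Δ → Prop} (hC : PropC κ n h W S)
    {b : ZMod n → κ} (hb : ∀ j, b j ≠ 0) (X : I → Submodule κ (ZMod n → κ))
    (hX : ∀ i, ∀ f ∈ X i, (fun j => b j * f (j + 1)) ∈ X i)
    (hdim : ∀ i, Module.finrank κ (X i) ≤ h) {x : I → ZMod n → κ} (hx : ∀ i, x i ∈ X i)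
    (hrel : ∀ j δ, S j δ → ∑ i, W i δ * x i j = 0) (i : I) : x i = 0 := by
  classical
  obtain ⟨lam, hlam⟩ := hroot (∏ i ∈ Finset.range n, b (i : ZMod n))
  have hprod : ∀ r : ℕ, ∏ i ∈ Finset.range r, b (i : ZMod n) ≠ 0 := fun r =>
    Finset.prod_ne_zero_iff.2 fun i _ => hb _
  have hlam0 : lam ≠ 0 := by
    rintro rfl
    rw [zero_pow (NeZero.ne n)] at hlam
    exact hprod n hlam.symm
  let d' : ℕ → κ := fun r => lam ^ r / ∏ i ∈ Finset.range r, b (i : ZMod n)
  have hd' : ∀ r : ℕ, d' r ≠ 0 := fun r => div_ne_zero (pow_ne_zero _ hlam0) (hprod r)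
  have hstep' : ∀ r : ℕ, b (r : ZMod n) * d' (r + 1) = lam * d' r := by
    intro r
    simp only [d']
    rw [Finset.prod_range_succ]
    have h1 := hprod r
    have h2 := hb (r : ZMod n)
    field_simp
    ring
  have hwrap : d' n = d' 0 := by
    simp only [d']
    rw [hlam, div_self (hprod n)]
    simp
  let d : ZMod n → κ := fun j => d' j.val
  have hd : ∀ j, d j ≠ 0 := fun j => hd' _
  have hstep : ∀ j : ZMod n, b j * d (j + 1) = lam * d j := by
    intro j
    have h1 : ((j.val : ℕ) : ZMod n) = j := ZMod.natCast_zmod_val j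
    have h2 := hstep' j.val
    rw [h1] at h2
    simp only [d]
    rw [← h2]
    congr 1
    by_cases hj : j.val + 1 = n
    · have h3 : j + 1 = 0 := by
        rw [← h1, ← Nat.cast_succ, Nat.succ_eq_add_one, hj, ZMod.natCast_self]
      rw [h3, hj, hwrap, ZMod.val_zero]
    · have h3 : (j + 1).val = j.val + 1 := by
        have h4 := ZMod.val_lt j
        rw [← h1, ← Nat.cast_succ, Nat.succ_eq_add_one, ZMod.val_cast_of_lt (by omega), h1]
      rw [h3]
  -- the untwisting
  let D : (ZMod n → κ) ≃ₗ[κ] (ZMod n → κ) :=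
    LinearEquiv.piCongrRight fun j => LinearEquiv.smulOfNeZero κ κ (d j)⁻¹ (inv_ne_zero (hd j))
  have hD : ∀ f j, D f j = (d j)⁻¹ * f j := fun f j => rfl
  have h1 := hC (fun i => (X i).map (D : (ZMod n → κ) →ₗ[κ] (ZMod n → κ))) (by
    rintro i _ ⟨f, hf, rfl⟩
    refine ⟨lam⁻¹ • fun j => b j * f (j + 1), (X i).smul_mem _ (hX i f hf), ?_⟩
    funext j
    rw [shift_apply]
    change (d j)⁻¹ * (lam⁻¹ * (b j * f (j + 1))) = (d (j + 1))⁻¹ * f (j + 1)
    have h2 := hstep j
    have h3 := hd j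
    have h4 := hd (j + 1)
    field_simp
    linear_combination f (j + 1) * h2) (by
    intro i
    rw [LinearEquiv.finrank_map_eq]
    exact hdim i) (fun i => D (x i)) (fun i => ⟨x i, hx i, rfl⟩) (by
    intro j δ hj
    have h2 := hrel j δ hj
    have h3 : ∀ i, W i δ * D (x i) j = (d j)⁻¹ * (W i δ * x i j) := by
      intro i
      rw [hD]
      ring
    rw [Finset.sum_congr rfl (fun i _ => h3 i), ← Finset.mul_sum, h2, mul_zero]) i
  exact (LinearEquiv.map_eq_zero_iff D).1 h1

end Pool.Agent.H512.E
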