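import Pool.Agent.H512.E.Res
import Pool.Agent.H512.E.Shift

set_option autoImplicit false
set_option linter.unusedSectionVars false

/-!
# Relations between functions in spaces with shift invariant reduction
-/

namespace Pool.Agent.H512.E

open Pool.Agent.H512.IT

variable {p : ℕ} [hp : Fact p.Prime]

theorem lemB {n h : ℕ} [NeZero n] {I Δ : Type} [Fintype I] {W : I → Δ → ℂ_[p]}
    (hW : ∀ i δ, ‖W i δ‖ ≤ 1) {S : ZMod n → Δ → Prop}
    (hC : PropC (Kap p) n h (fun i δ => rdc (W i δ)) S)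
    (V : I → Submodule ℂ_[p] (ZMod n → ℂ_[p])) (hdim : ∀ i, Module.finrank ℂ_[p] (V i) ≤ h)
    {b : ZMod n → Kap p} (hb : ∀ j, b j ≠ 0)
    (hst : ∀ i, ∀ f ∈ redSub (V i), (fun j => b j * f (j + 1)) ∈ redSub (V i))
    {v : I → ZMod n → ℂ_[p]} (hv : ∀ i, v i ∈ V i)
    (hrel : ∀ j δ, S j δ → ∑ i, W i δ * v i j = 0) (i : I) : v i = 0 := by
  classical
  by_contra hne
  have hne' : ∃ z : I × ZMod n, v z.1 z.2 ≠ 0 := by
    by_contra hcon
    push Not at hcon
    exact hne (funext fun j => hcon (i, j))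
  obtain ⟨⟨i0, j0⟩, hz, hmax⟩ := exists_max (fun z : I × ZMod n => v z.1 z.2) hne'
  set a := v i0 j0 with ha
  change a ≠ 0 at hz
  have hle : ∀ i j, ‖a⁻¹ * v i j‖ ≤ 1 := by
    intro i j
    have h1 : ‖v i j‖ ≤ ‖a‖ := hmax (i, j)
    rw [norm_mul, norm_inv, mul_comm, ← div_eq_mul_inv]
    exact div_le_one_of_le₀ h1 (norm_nonneg _)
  have h1 := hC.twist (fun y => exists_root y (Nat.pos_of_ne_zero (NeZero.ne n))) hb
    (fun i => redSub (V i)) hst (fun i => (finrank_redSub (V i)).trans (hdim i))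
    (x := fun i j => rdc (a⁻¹ * v i j))
    (fun i => ⟨a⁻¹ • v i, (V i).smul_mem _ (hv i), hle i, fun j => rfl⟩) (by
      intro j δ hj
      have h2 : ∀ i, rdc (W i δ) * rdc (a⁻¹ * v i j) = rdc (W i δ * (a⁻¹ * v i j)) := fun i =>
        (rdc_mul (hW i δ) (hle i j)).symm
      rw [Finset.sum_congr rfl (fun i _ => h2 i), ← rdc_sum]
      · have h3 : ∀ i, W i δ * (a⁻¹ * v i j) = a⁻¹ * (W i δ * v i j) := by
          intro i
          ring
        rw [Finset.sum_congr rfl (fun i _ => h3 i), ← Finset.mul_sum, hrel j δ hj, mul_zero,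
          rdc_zero]
      · intro i _
        rw [norm_mul]
        exact mul_le_one₀ (hW i δ) (norm_nonneg _) (hle i j)) i0
  have h2 := congrFun h1 j0
  simp only [Pi.zero_apply] at h2
  rw [← ha, inv_mul_cancel₀ hz, rdc_one] at h2
  exact one_ne_zero h2

/-- the untwisted version for shift invariant spaces -/
theorem lemB' {n h : ℕ} [NeZero n] {I Δ : Type} [Fintype I] {W : I → Δ → ℂ_[p]}
    (hW : ∀ i δ, ‖W i δ‖ ≤ 1) {S : ZMod n → Δ → Prop}
    (hC : PropC (Kap p) n h (fun i δ => rdc (W i δ)) S)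
    (V : I → Submodule ℂ_[p] (ZMod n → ℂ_[p])) (hdim : ∀ i, Module.finrank ℂ_[p] (V i) ≤ h)
    (hst : ∀ i, ∀ f ∈ V i, (fun j => f (j + 1)) ∈ V i)
    {v : I → ZMod n → ℂ_[p]} (hv : ∀ i, v i ∈ V i)
    (hrel : ∀ j δ, S j δ → ∑ i, W i δ * v i j = 0) (i : I) : v i = 0 := by
  refine lemB hW hC V hdim (b := fun _ => 1) (fun _ => one_ne_zero) ?_ hv hrel i
  rintro i f ⟨w, hw, hw1, hw2⟩
  exact ⟨fun j => w (j + 1), hst i w hw, fun j => hw1 _, fun j => by
    change 1 * f (j + 1) = _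
    rw [one_mul, hw2]⟩

end Pool.Agent.H512.E
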