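import Pool.Agent.H512.E.Big
import Pool.Agent.H512.E.Gal
import Pool.Agent.H512.IT.OddMain

set_option autoImplicit false
set_option linter.unusedSectionVars false

/-!
# The kernel of the regulator for all CM types of an abelian CM field whose Galois group has a
cyclic Sylow 2-subgroup
-/

namespace Pool.Agent.H512.E

open NumberField TensorProduct Pool.Agent.W289.SL Pool.Agent.W332.SL6 Pool.Agent.H512.IT
open scoped Nat

variable {p : ℕ} [hp : Fact p.Prime]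

section

variable {k H : Type} [Field k] [NumberField k] [Field H] [NumberField H] [Algebra k H]
  [FiniteDimensional k H] [IsGalois k H]

/-- the logarithms at the embeddings `s ∘ g^j` -/
noncomputable def logF {L : ℂ_[p] → ℂ_[p]} (hL : IsIwasawaLog p L) (s : H →+* ℂ_[p])
    (g : H ≃ₐ[ℚ] H) (n : ℕ) : UM p H →ₗ[ℂ_[p]] (ZMod n → ℂ_[p]) :=
  LinearMap.pi fun j => logLin hL (emb s g j.val)

lemma logF_apply {L : ℂ_[p] → ℂ_[p]} (hL : IsIwasawaLog p L) (s : H →+* ℂ_[p])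
    (g : H ≃ₐ[ℚ] H) (n : ℕ) (x : UM p H) (j : ZMod n) :
    logF hL s g n x j = logLin hL (emb s g j.val) x := rfl

/-- the space of the logarithms of the `ψ`-part -/
noncomputable def logV {L : ℂ_[p] → ℂ_[p]} (hL : IsIwasawaLog p L) (s : H →+* ℂ_[p])
    (g : H ≃ₐ[ℚ] H) (n : ℕ) (ψ : (H ≃ₐ[k] H) →* ℂ_[p]ˣ) :
    Submodule ℂ_[p] (ZMod n → ℂ_[p]) := (kerN ψ hL s g 0).map (logF hL s g n)

lemma mem_logV {L : ℂ_[p] → ℂ_[p]} {hL : IsIwasawaLog p L} {s : H →+* ℂ_[p]}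
    {g : H ≃ₐ[ℚ] H} {n : ℕ} {ψ : (H ≃ₐ[k] H) →* ℂ_[p]ˣ} {f : ZMod n → ℂ_[p]} :
    f ∈ logV hL s g n ψ ↔ ∃ z, InChi ψ z ∧ logF hL s g n z = f := by
  constructor
  · rintro ⟨z, hz, h⟩
    exact ⟨z, hz.1, h⟩
  · rintro ⟨z, hz, h⟩
    exact ⟨z, ⟨hz, fun i hi => absurd hi (Nat.not_lt_zero i)⟩, h⟩

lemma finrank_logV {L : ℂ_[p] → ℂ_[p]} (hL : IsIwasawaLog p L) (s : H →+* ℂ_[p])
    (g : H ≃ₐ[ℚ] H) (n : ℕ) (ψ : (H ≃ₐ[k] H) →* ℂ_[p]ˣ) :
    Module.finrank ℂ_[p] (logV hL s g n ψ) ≤ Fintype.card (InfinitePlace k) :=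
  (Submodule.finrank_map_le _ _).trans (finrank_kerN_zero ψ hL s g)

/-- the logarithms of the image under the semilinear operator -/
lemma log_opT {τ : ℂ_[p] ≃+* ℂ_[p]} (hτ : Isom τ) {g : H ≃ₐ[ℚ] H}
    {ψ : (H ≃ₐ[k] H) →* ℂ_[p]ˣ} {L : ℂ_[p] → ℂ_[p]} (hL : IsIwasawaLog p L) {s : H →+* ℂ_[p]}
    {u : H ≃ₐ[k] H}
    (hs : ((τ.symm : ℂ_[p] ≃+* ℂ_[p]) : ℂ_[p] →+* ℂ_[p]).comp s = s.comp (u : H →+* H))
    {i : ℕ} {v : H ≃ₐ[k] H} (hv : ∀ y, (g ^ (i + 1)) (v y) = u ((g ^ (i + 1)) y)) {z : UM p H}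
    (hz : InChi ψ z) :
    logLin hL (emb s g i) (opT τ g z) =
      τ (((ψ v : ℂ_[p]ˣ) : ℂ_[p]) * logLin hL (emb s g (i + 1)) z) := by
  rw [opT_apply, logLin_tw hτ, logLin_push, ← logLin_inChi hL hz]
  congr 3
  ext y
  have h1 := RingHom.congr_fun hs ((g ^ i) (g y))
  change τ.symm (s ((g ^ i) (g y))) = s ((g ^ (i + 1)) (v y))
  have h2 : τ.symm (s ((g ^ i) (g y))) = s (u ((g ^ i) (g y))) := h1
  rw [h2, hv, pow_succ, AlgEquiv.mul_apply]

end

section red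

variable {n : ℕ} [NeZero n]

lemma exists_lifts (V : Submodule ℂ_[p] (ZMod n → ℂ_[p])) :
    ∃ (r : ℕ) (w : Fin r → ZMod n → ℂ_[p]), (∀ i, w i ∈ V) ∧ (∀ i j, ‖w i j‖ ≤ 1) ∧
      redSub V ≤ Submodule.span (Kap p) (Set.range fun i => fun j => rdc (w i j)) := by
  classical
  let r := Module.finrank (Kap p) (redSub V)
  let b : Module.Basis (Fin r) (Kap p) (redSub V) := Module.finBasis _ _
  have hb : ∀ i, ∃ v ∈ V, (∀ j, ‖v j‖ ≤ 1) ∧ ∀ j, (b i : ZMod n → Kap p) j = rdc (v j) :=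
    fun i => (b i).2
  choose v hv hv1 hv2 using hb
  refine ⟨r, v, hv, hv1, ?_⟩
  intro f hf
  have h1 : (fun i => fun j => rdc (v i j)) = fun i => ((b i : redSub V) : ZMod n → Kap p) := by
    funext i j
    exact (hv2 i j).symm
  rw [h1]
  have h2 := b.sum_repr ⟨f, hf⟩
  have h3 := congrArg (fun x : redSub V => (x : ZMod n → Kap p)) h2
  simp only [Submodule.coe_sum, Submodule.coe_smul] at h3
  rw [← h3]
  exact Submodule.sum_mem _ fun i _ => Submodule.smul_mem _ _ (Submodule.subset_span ⟨i, rfl⟩)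

lemma red_stable {V : Submodule ℂ_[p] (ZMod n → ℂ_[p])} {τ : ℂ_[p] ≃+* ℂ_[p]} (hτ : Isom τ)
    {β : ZMod n → ℂ_[p]} (hβ : ∀ j, ‖β j‖ = 1) {r : ℕ} {w : Fin r → ZMod n → ℂ_[p]}
    (hw : ∀ i, w i ∈ V) (hw1 : ∀ i j, ‖w i j‖ ≤ 1)
    (hspan : redSub V ≤ Submodule.span (Kap p) (Set.range fun i => fun j => rdc (w i j)))
    (hres : ∀ i j, ‖τ (w i j) - w i j‖ < 1)
    (hT : ∀ f ∈ V, (fun j => τ (β j * f (j + 1))) ∈ V) {f : ZMod n → Kap p}
    (hf : f ∈ redSub V) : (fun j => rdc (τ (β j)) * f (j + 1)) ∈ redSub V := by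
  let Sb : (ZMod n → Kap p) →ₗ[Kap p] (ZMod n → Kap p) :=
    { toFun := fun f j => rdc (τ (β j)) * f (j + 1)
      map_add' := fun f f' => by
        funext j
        exact mul_add _ _ _
      map_smul' := fun c f => by
        funext j
        exact mul_left_comm _ _ _ }
  have h0 : Submodule.span (Kap p) (Set.range fun i => fun j => rdc (w i j)) ≤
      (redSub V).comap Sb := by
    rw [Submodule.span_le]
    rintro _ ⟨i, rfl⟩
    refine ⟨fun j => τ (β j * w i (j + 1)), hT _ (hw i), fun j => ?_, fun j => ?_⟩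
    · rw [hτ, norm_mul, hβ, one_mul]
      exact hw1 _ _
    · have h1 : rdc (τ (w i (j + 1))) = rdc (w i (j + 1)) :=
        rdc_congr (by rw [hτ]; exact hw1 _ _) (hw1 _ _) (hres _ _)
      change rdc (τ (β j)) * rdc (w i (j + 1)) = rdc (τ (β j * w i (j + 1)))
      rw [map_mul, rdc_mul (by rw [hτ, hβ]) (by rw [hτ]; exact hw1 _ _), h1]
  exact h0 (hspan hf)

end red

section

variable {F K k H : Type} [Field F] [NumberField F] [Field K] [NumberField K] [Algebra F K]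
  [Field k] [NumberField k] [Algebra k K]
  [Field H] [NumberField H] [Algebra K H] [Algebra k H] [IsScalarTower k K H]
  [FiniteDimensional k H] [FiniteDimensional K H] [FiniteDimensional k K] [IsGalois k K]
  [IsGalois k H] [IsGalois K H] [IsGalois ℚ K] [IsGalois ℚ H] [IsGalois ℚ k]

/-- **All CM types, the kernel is the Leopoldt kernel.** -/
theorem all_types_ker {n m : ℕ} (hn : n = 2 ^ (m + 1)) (hFK : Module.finrank F K = 2)
    (hk : Module.finrank ℚ k = n) (hodd : Odd (Module.finrank k K)) {γk : k ≃ₐ[ℚ] k}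
    (hγk : ∀ δ : k ≃ₐ[ℚ] k, δ ∈ Subgroup.zpowers γk) (hKab : ∀ a b : K ≃ₐ[ℚ] K, a * b = b * a)
    (hp2 : p = 2 ∨ (Module.finrank ℚ F)! ^ Module.finrank ℚ F < p)
    {S : Set (K →+* ℂ_[p])} (hS : IsCMType p F K S) (hord : Ordinary S)
    (hpl : Fintype.card (InfinitePlace k) ≤ 2 ^ m) (hab : ∀ a b : H ≃ₐ[k] H, a * b = b * a)
    (χ : (H ≃ₐ[K] H) →* ℂ_[p]ˣ) (hχ : Function.Injective χ)
    (hcen : ∀ h : H ≃ₐ[K] H, (orderOf h).Coprime p → ∀ g : H ≃ₐ[ℚ] H, ∀ y, g (h y) = h (g y))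
    {L : ℂ_[p] → ℂ_[p]} (hL : IsIwasawaLog p L) {x : UM p H}
    (h0 : ∀ σ : H →+* ℂ_[p], σ.comp (algebraMap K H) ∈ S → logLin hL σ x = 0)
    (σ : H →+* ℂ_[p]) : logLin hL σ x = 0 := by
  classical
  have hn0 : 0 < n := by rw [hn]; exact pow_pos two_pos _
  have : NeZero n := ⟨hn0.ne'⟩
  set u := Module.finrank k K with hu
  have hFu : Module.finrank ℚ F = 2 ^ m * u := by
    have h1 := Module.finrank_mul_finrank ℚ F K
    have h2 := Module.finrank_mul_finrank ℚ k K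
    rw [hFK] at h1
    rw [hk, ← h1, ← hu, hn, pow_succ] at h2
    have h3 : 2 ^ m * 2 * u = 2 * (2 ^ m * u) := by ring
    omega
  rw [hFu] at hp2
  have hu0 : 0 < u := hodd.pos
  have hcop : Nat.Coprime n u := by
    rw [hn]
    exact Nat.Coprime.pow_left _ hodd.coprime_two_left
  have hpu : ¬ p ∣ u := by
    intro h2
    rcases hp2 with h | h
    · rw [h] at h2
      exact (Nat.not_even_iff_odd.2 hodd) (even_iff_two_dvd.2 h2)
    · have h3 := Nat.le_of_dvd hu0 h2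
      have h4 := Nat.self_le_factorial (2 ^ m * u)
      have h5 : (2 ^ m * u)! ≤ (2 ^ m * u)! ^ (2 ^ m * u) :=
        Nat.le_self_pow (Nat.mul_pos (pow_pos two_pos _) hu0).ne' _
      have h6 : u ≤ 2 ^ m * u := Nat.le_mul_of_pos_left _ (pow_pos two_pos _)
      omega
  -- the generator of the Sylow subgroup and the complex conjugation
  obtain ⟨c, ⟨c₀, hc₀, hcc₀⟩, hcc, hc1⟩ := exists_c hFK
  have hSc := hS c₀ hc₀
  obtain ⟨γ, hγ, hγn⟩ := exists_gen (K := K) hk (by rw [← hu]; exact hcop) γk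
  have hcγ : c = γ ^ 2 ^ m :=
    conj_eq_pow (hk.trans hn) hodd hKab hγk hγ (by rw [← hn]; exact hγn) hcc hc1
  obtain ⟨g, hg'⟩ := AlgEquiv.restrictNormalHom_surjective (F := ℚ) (K₁ := K) H γ
  have hg : Lifts γ g := by
    intro y
    rw [← hg']
    exact (AlgEquiv.restrictNormal_commutes g K y).symm
  have hgk : Lifts γk g := by
    intro y
    rw [IsScalarTower.algebraMap_apply k K H, hg, hγ, ← IsScalarTower.algebraMap_apply]
  have hgn : ∀ y : K, (g ^ n) (algebraMap K H y) = algebraMap K H y := by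
    intro y
    rw [hg.pow n, hγn]
    rfl
  obtain ⟨a0, ha0⟩ : ∃ a : H ≃ₐ[k] H, ∀ y, (g ^ n) y = a y := by
    refine ⟨AlgEquiv.ofRingEquiv (f := ((g ^ n : H ≃ₐ[ℚ] H) : H ≃+* H)) ?_, fun y => rfl⟩
    intro y
    change (g ^ n) (algebraMap k H y) = _
    rw [IsScalarTower.algebraMap_apply k K H, hgn]
  -- the groups
  have hΔab : ∀ a b : K ≃ₐ[k] K, a * b = b * a := by
    intro a b
    ext y
    exact congrArg (fun f : K ≃ₐ[ℚ] K => f y) (hKab (a.restrictScalars ℚ) (b.restrictScalars ℚ))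
  let : CommGroup (H ≃ₐ[k] H) :=
    { (inferInstance : Group (H ≃ₐ[k] H)) with mul_comm := hab }
  let : CommGroup (K ≃ₐ[k] K) :=
    { (inferInstance : Group (K ≃ₐ[k] K)) with mul_comm := hΔab }
  have hcardΔ : Fintype.card (K ≃ₐ[k] K) = u := by
    rw [← Nat.card_eq_fintype_card, IsGalois.card_aut_eq_finrank]
  obtain ⟨e⟩ := CommGroup.monoidHom_mulEquiv_of_hasEnoughRootsOfUnity (K ≃ₐ[k] K) ℂ_[p]
  have : Finite ((K ≃ₐ[k] K) →* ℂ_[p]ˣ) := Finite.of_equiv (K ≃ₐ[k] K) e.symm.toEquiv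
  have : Fintype ((K ≃ₐ[k] K) →* ℂ_[p]ˣ) := Fintype.ofFinite _
  have hcardI : Fintype.card ((K ≃ₐ[k] K) →* ℂ_[p]ˣ) ≤ Fintype.card (K ≃ₐ[k] K) :=
    (Fintype.card_congr e.toEquiv).le
  obtain ⟨s⟩ : Nonempty (H →+* ℂ_[p]) := inferInstance
  -- the characters of `Gal(K / k)`
  let W : ((K ≃ₐ[k] K) →* ℂ_[p]ˣ) → (K ≃ₐ[k] K) → ℂ_[p] := fun ω δ => ((ω δ : ℂ_[p]ˣ) : ℂ_[p])
  have hW : ∀ ω δ, W ω δ ^ Fintype.card (K ≃ₐ[k] K) = 1 := by
    intro ω δ
    change ((ω δ : ℂ_[p]ˣ) : ℂ_[p]) ^ _ = 1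
    rw [← Units.val_pow_eq_pow_val, ← map_pow, pow_card_eq_one, map_one, Units.val_one]
  have hWn : ∀ ω δ, ‖W ω δ‖ = 1 := fun ω δ => norm_root (by rw [hcardΔ]; exact hu0) (hW ω δ)
  have horth : ∀ ω ω', ω ≠ ω' → ∑ δ, (W ω δ)⁻¹ * W ω' δ = 0 := by
    intro ω ω' hne
    let f : (K ≃ₐ[k] K) →* ℂ_[p] := (Units.coeHom ℂ_[p]).comp (ω⁻¹ * ω')
    have hfx : ∀ δ, f δ = (W ω δ)⁻¹ * W ω' δ := by
      intro δ
      simp [f, W]
    have hf : f ≠ 1 := by
      intro h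
      apply hne
      ext δ
      have h3 := congrArg (fun f : (K ≃ₐ[k] K) →* ℂ_[p] => f δ) h
      have h4 : (W ω δ)⁻¹ * W ω' δ = 1 := (hfx δ).symm.trans h3
      have h6 : W ω δ ≠ 0 := Units.ne_zero _
      field_simp at h4
      exact h4.symm
    have h3 := sum_hom_units_eq_zero f hf
    rw [← h3]
    exact Finset.sum_congr rfl fun δ _ => (hfx δ).symm
  -- the CM type
  let S' : ZMod n → (K ≃ₐ[k] K) → Prop := fun j δ =>
    ((s.comp (algebraMap K H)).comp ((γ ^ j.val : K ≃ₐ[ℚ] K) : K →+* K)).comp (δ : K →+* K) ∈ S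
  have hγmod : ∀ a b : ℕ, a ≡ b [MOD n] → γ ^ a = γ ^ b := by
    intro a b h
    rw [pow_eq_pow_iff_modEq]
    exact h.of_dvd (orderOf_dvd_of_pow_eq_one hγn)
  have hS' : ∀ j δ, S' j δ ∨ S' (j + ((2 ^ m : ℕ) : ZMod n)) δ := by
    intro j δ
    by_cases h : S' j δ
    · exact Or.inl h
    · right
      have h1 : (((s.comp (algebraMap K H)).comp ((γ ^ j.val : K ≃ₐ[ℚ] K) : K →+* K)).comp
          (δ : K →+* K)).comp (c₀ : K →+* K) ∈ S := by
        by_contra hcon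
        exact h ((hSc _).2 hcon)
      have h2 : γ ^ (j + ((2 ^ m : ℕ) : ZMod n)).val = γ ^ j.val * γ ^ 2 ^ m := by
        rw [← pow_add]
        apply hγmod
        rw [ZMod.val_add, ZMod.val_natCast]
        exact (Nat.mod_modEq _ _).trans (Nat.ModEq.add_left _ (Nat.mod_modEq _ _))
      change ((s.comp (algebraMap K H)).comp
        ((γ ^ (j + ((2 ^ m : ℕ) : ZMod n)).val : K ≃ₐ[ℚ] K) : K →+* K)).comp (δ : K →+* K) ∈ S
      rw [h2]
      convert h1 using 1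
      ext y
      change s (algebraMap K H ((γ ^ j.val * γ ^ 2 ^ m) (δ y))) =
        s (algebraMap K H ((γ ^ j.val) (δ (c₀ y))))
      rw [AlgEquiv.mul_apply, ← hcγ, ← hcc₀]
      have h3 := congrArg (fun f : K ≃ₐ[ℚ] K => f y) (hKab c (δ.restrictScalars ℚ))
      have h4 : c (δ y) = δ (c y) := h3
      rw [h4]
  have hC := propC_all hn (by rw [hcardΔ]; exact hodd) hcardI (by rw [hcardΔ]; exact hp2) hW
    horth hS'
  -- the claim for one character
  have main : ∀ ψ₀ : (H ≃ₐ[k] H) →* ℂ_[p]ˣ, logF hL s g n (prj ψ₀ x) = 0 := by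
    intro ψ₀
    let res : (H ≃ₐ[k] H) →* (K ≃ₐ[k] K) := AlgEquiv.restrictNormalHom K
    have hres : ∀ (h : H ≃ₐ[k] H) (y : K), h (algebraMap K H y) = algebraMap K H (res h y) :=
      fun h y => (AlgEquiv.restrictNormal_commutes h K y).symm
    let ψ : ((K ≃ₐ[k] K) →* ℂ_[p]ˣ) → ((H ≃ₐ[k] H) →* ℂ_[p]ˣ) := fun ω => ψ₀ * ω.comp res
    have hψ : ∀ ω h, ((ψ ω h : ℂ_[p]ˣ) : ℂ_[p]) = ((ψ₀ h : ℂ_[p]ˣ) : ℂ_[p]) * W ω (res h) :=
      fun ω h => rfl
    have hres0 : res a0 = 1 := by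
      ext y
      apply (algebraMap K H).injective
      rw [← hres, ← ha0, hgn]
      rfl
    let V : ((K ≃ₐ[k] K) →* ℂ_[p]ˣ) → Submodule ℂ_[p] (ZMod n → ℂ_[p]) :=
      fun ω => logV hL s g n (ψ ω)
    choose r w hwV hw1 hwspan using fun ω => exists_lifts (V ω)
    -- a residually trivial automorphism
    obtain ⟨n₀, hn₀, hteich⟩ := exists_teich_family (p := p)
      (Finset.univ : Finset ((Σ ω : (K ≃ₐ[k] K) →* ℂ_[p]ˣ, Fin (r ω)) × ZMod n))
      (fun z => w z.1.1 z.1.2 z.2)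
    obtain ⟨ρ, hρ1, hρ2⟩ := exists_sigma hab hKab hgk hg χ hχ
      (fun h hh y => hcen h hh g y) ⟨a0, ha0⟩ hcop.symm hpu hn₀
    set τ := ext ρ with hτdef
    have hτ : Isom τ := ext_isom ρ
    have hτres : ∀ ω i j, ‖τ (w ω i j) - w ω i j‖ < 1 := by
      intro ω i j
      rcases lt_or_eq_of_le (hw1 ω i j) with h | h
      · refine lt_of_le_of_lt (nsub_le_max _ _) (max_lt ?_ h)
        rw [hτ]
        exact h
      · obtain ⟨z, hz, hz'⟩ := hteich ⟨⟨ω, i⟩, j⟩ (Finset.mem_univ _) h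
        exact resid hρ1 ⟨z, hz, hz'⟩
    obtain ⟨u', hu'⟩ := exists_aut (K := k) (((τ.symm : ℂ_[p] ≃+* ℂ_[p]) : ℂ_[p] →+* ℂ_[p]).comp s)
      s (by
        ext y
        change τ.symm (s (algebraMap k H y)) = s (algebraMap k H y)
        have h1 := fix_k' hFK (hk.trans hn) hodd hKab hγk hS hord hτ.symm
          (s.comp (algebraMap K H)) y
        rw [IsScalarTower.algebraMap_apply k K H]
        exact h1)
    choose v hv using fun i : ℕ => exists_conj (hgk.pow i) u'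
    have hresv : ∀ i, res (v i) = res u' := by
      intro i
      ext y
      apply (algebraMap K H).injective
      apply (g ^ i).injective
      rw [← hres, hv, hg.pow i, hres, hg.pow i]
      congr 1
      have h2 := congrArg (fun f : K ≃ₐ[ℚ] K => f y)
        (hKab ((res u').restrictScalars ℚ) (γ ^ i))
      exact h2
    let β : ZMod n → ℂ_[p] := fun j => ((ψ₀ (v (j.val + 1)) : ℂ_[p]ˣ) : ℂ_[p]) *
      (if j.val + 1 = n then ((ψ₀ a0 : ℂ_[p]ˣ) : ℂ_[p]) else 1)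
    have hβ : ∀ j, ‖β j‖ = 1 := by
      intro j
      simp only [β]
      rw [norm_mul, norm_chi, one_mul]
      split_ifs
      · exact norm_chi _ _
      · exact norm_one
    have hβ' : ∀ ω j, ‖W ω (res u') * β j‖ = 1 := by
      intro ω j
      rw [norm_mul, hWn, hβ, one_mul]
    have hT : ∀ ω, ∀ f ∈ V ω, (fun j => τ ((W ω (res u') * β j) * f (j + 1))) ∈ V ω := by
      intro ω f hf
      obtain ⟨z, hz, rfl⟩ := mem_logV.1 hf
      refine mem_logV.2 ⟨opT τ g z, opT_inChi hgk (hρ2 (ψ ω)) hz, ?_⟩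
      funext j
      rw [logF_apply, log_opT hτ hL hu' (hv (j.val + 1)) hz, logF_apply, hψ, hresv]
      have hj1 : ((j.val : ℕ) : ZMod n) = j := ZMod.natCast_zmod_val j
      by_cases hj : j.val + 1 = n
      · have h3 : j + 1 = 0 := by
          rw [← hj1, ← Nat.cast_succ, Nat.succ_eq_add_one, hj, ZMod.natCast_self]
        have h4 : logLin hL (emb s g (j.val + 1)) z =
            ((ψ₀ a0 : ℂ_[p]ˣ) : ℂ_[p]) * logLin hL (emb s g (j + 1).val) z := by
          have h5 : emb s g (j.val + 1) = (emb s g 0).comp (a0 : H →+* H) := by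
            ext y
            change s ((g ^ (j.val + 1)) y) = s ((g ^ 0) (a0 y))
            rw [hj, ha0]
            rfl
          rw [h5, logLin_inChi hL hz, hψ, hres0, h3, ZMod.val_zero]
          congr 1
          change _ * (((ω 1 : ℂ_[p]ˣ)) : ℂ_[p]) = _
          rw [map_one, Units.val_one, mul_one]
        rw [h4]
        simp only [β]
        rw [if_pos hj]
        congr 1
        ring
      · have h3 : (j + 1).val = j.val + 1 := by
          have h4 := ZMod.val_lt j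
          rw [← hj1, ← Nat.cast_succ, Nat.succ_eq_add_one, ZMod.val_cast_of_lt (by omega), hj1]
        rw [h3]
        simp only [β]
        rw [if_neg hj]
        congr 1
        ring
    have hb : ∀ j, rdc (τ (β j)) ≠ 0 := fun j => rdc_ne_zero (by rw [hτ, hβ])
    have hst : ∀ ω, ∀ f ∈ redSub (V ω), (fun j => rdc (τ (β j)) * f (j + 1)) ∈ redSub (V ω) := by
      intro ω f hf
      have h1 := red_stable hτ (hβ' ω) (hwV ω) (hw1 ω) (hwspan ω) (hτres ω) (hT ω) hf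
      have h2 : rdc (τ (W ω (res u'))) ≠ 0 := rdc_ne_zero (by rw [hτ, hWn])
      have h3 : (fun j => rdc (τ (W ω (res u') * β j)) * f (j + 1)) =
          rdc (τ (W ω (res u'))) • (fun j => rdc (τ (β j)) * f (j + 1)) := by
        funext j
        rw [map_mul τ, rdc_mul (by rw [hτ, hWn]) (by rw [hτ, hβ]), Pi.smul_apply, smul_eq_mul]
        exact mul_assoc _ _ _
      rw [h3] at h1
      exact ((redSub (V ω)).smul_mem_iff h2).1 h1
    have hfin := lemB (fun ω δ => (hWn ω δ).le) hC V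
      (fun ω => (finrank_logV hL s g n (ψ ω)).trans hpl) hb hst
      (v := fun ω => logF hL s g n (prj (ψ ω) x))
      (fun ω => mem_logV.2 ⟨_, prj_inChi _ _, rfl⟩) (by
        intro j δ hj
        obtain ⟨h, hh⟩ := AlgEquiv.restrictNormalHom_surjective (F := k) (K₁ := K) H δ
        have h1 := sum_prj_zero hΔab ψ₀ hL h0 ((emb s g j.val).comp (h : H →+* H)) (by
          convert hj using 1
          ext y
          change s ((g ^ j.val) (h (algebraMap K H y))) =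
            s (algebraMap K H ((γ ^ j.val) (δ y)))
          rw [hres, hg.pow, ← hh])
        have h2 : ∀ ω : (K ≃ₐ[k] K) →* ℂ_[p]ˣ, logLin hL ((emb s g j.val).comp (h : H →+* H))
            (prj (ψ₀ * ω.comp (AlgEquiv.restrictNormalHom K)) x) =
            ((ψ₀ h : ℂ_[p]ˣ) : ℂ_[p]) * (W ω δ * logF hL s g n (prj (ψ ω) x) j) := by
          intro ω
          rw [logLin_inChi hL (prj_inChi _ x)]
          change ((ψ ω h : ℂ_[p]ˣ) : ℂ_[p]) * logF hL s g n (prj (ψ ω) x) j = _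
          rw [hψ, mul_assoc]
          congr 4
        rw [Finset.sum_congr rfl (fun ω _ => h2 ω), ← Finset.mul_sum] at h1
        exact (mul_eq_zero.1 h1).resolve_left (Units.ne_zero _)) 1
    have h2 : ψ 1 = ψ₀ := by
      ext h
      rw [hψ]
      simp [W]
    rwa [h2] at hfin
  -- the other embeddings
  obtain ⟨j, hj, hj'⟩ := exists_powQ hγk (σ.comp (algebraMap k H)) (s.comp (algebraMap k H))
  rw [orderOf_genk (hk.trans hn) hγk, ← hn] at hj
  obtain ⟨a, ha⟩ := exists_aut (K := k) σ (emb s g j) (by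
    ext y
    change σ (algebraMap k H y) = s ((g ^ j) (algebraMap k H y))
    rw [hgk.pow j]
    exact hj' y)
  have hchar : ∀ ψ : (H ≃ₐ[k] H) →* ℂ_[p]ˣ, logLin hL σ (prj ψ x) = 0 := by
    intro ψ
    have h1 := congrFun (main ψ) (j : ZMod n)
    rw [logF_apply, ZMod.val_cast_of_lt hj] at h1
    rw [ha, logLin_inChi hL (prj_inChi ψ x), h1, Pi.zero_apply, mul_zero]
  have h1 := zero_of_chars (p := p) (fun b : H ≃ₐ[k] H => logLin hL (σ.comp (b : H →+* H)) x) (by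
    intro ψ
    rw [← hchar ψ]
    unfold prj
    rw [map_sum]
    refine Finset.sum_congr rfl fun b _ => ?_
    rw [map_smul, logLin_push])
  exact h1

end

end Pool.Agent.H512.E
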