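import Pool.Agent.H512.E.LemB

set_option autoImplicit false
set_option linter.unusedSectionVars false

/-!
# Minors, and expansions of functions on cyclic groups
-/

namespace Pool.Agent.H512.E

lemma exists_minor {K P C : Type} [Field K] [Fintype P] [Fintype C] [DecidableEq P]
    (A : Matrix P C K) (h : LinearIndependent K A.row) :
    ∃ col : P → C, (A.submatrix id col).det ≠ 0 := by
  classical
  have h1 : Module.finrank K (Submodule.span K (Set.range A.col)) = Fintype.card P := by
    rw [← Matrix.rank_eq_finrank_span_cols, h.rank_matrix]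
  obtain ⟨f, hf, -, hli⟩ := Submodule.exists_fun_fin_finrank_span_eq K (Set.range A.col)
  choose c hc using hf
  let e : P ≃ Fin (Module.finrank K (Submodule.span K (Set.range A.col))) :=
    Fintype.equivOfCardEq (by rw [Fintype.card_fin, h1])
  refine ⟨fun q => c (e q), ?_⟩
  have h2 : LinearIndependent K (A.submatrix id (fun q => c (e q))).col := by
    have h3 : (A.submatrix id (fun q => c (e q))).col = f ∘ e := by
      funext q
      change A.col (c (e q)) = f (e q)
      exact hc (e q)
    rw [h3]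
    exact hli.comp _ e.injective
  rw [Matrix.linearIndependent_cols_iff_isUnit, Matrix.isUnit_iff_isUnit_det] at h2
  exact h2.ne_zero

section

variable {R κ : Type} [CommRing R] [IsDomain R] [Field κ] {n : ℕ} [NeZero n]

/-- orthogonality in `κ` -/
lemma sum_phi {χ : AddChar (ZMod n) R} (hχ : χ.IsPrimitive) (φ : R →+* κ) (b : ZMod n) :
    ∑ a, φ (χ (a * b)) = if b = 0 then (n : κ) else 0 := by
  classical
  have h := AddChar.sum_mulShift b hχ
  rw [← map_sum, h]
  split_ifs
  · rw [ZMod.card]
    exact map_natCast φ n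
  · rw [Nat.cast_zero, map_zero]

/-- the coefficients -/
noncomputable def coef (χ : AddChar (ZMod n) R) (φ : R →+* κ) (x : ZMod n → κ) (a : ZMod n) : κ :=
  (n : κ)⁻¹ * ∑ i, φ (χ (-(a * i))) * x i

lemma expand {χ : AddChar (ZMod n) R} (hχ : χ.IsPrimitive) (φ : R →+* κ) (hn : (n : κ) ≠ 0)
    (x : ZMod n → κ) (j : ZMod n) : ∑ a, coef χ φ x a * φ (χ (a * j)) = x j := by
  classical
  have h1 : ∀ a, coef χ φ x a * φ (χ (a * j)) =
      (n : κ)⁻¹ * ∑ i, φ (χ (a * (j - i))) * x i := by
    intro a
    unfold coef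
    rw [mul_assoc, Finset.sum_mul]
    congr 1
    refine Finset.sum_congr rfl fun i _ => ?_
    have h2 : a * (j - i) = -(a * i) + a * j := by ring
    rw [h2, AddChar.map_add_eq_mul, map_mul φ]
    ring
  rw [Finset.sum_congr rfl (fun a _ => h1 a), ← Finset.mul_sum, Finset.sum_comm]
  have h2 : ∀ i, ∑ a, φ (χ (a * (j - i))) * x i = if i = j then (n : κ) * x i else 0 := by
    intro i
    rw [← Finset.sum_mul, sum_phi hχ φ]
    by_cases h : i = j
    · rw [if_pos h, if_pos (by rw [h, sub_self])]
    · rw [if_neg h, if_neg (fun h3 => h (sub_eq_zero.1 h3).symm), zero_mul]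
  rw [Finset.sum_congr rfl (fun i _ => h2 i), Finset.sum_ite_eq' Finset.univ j]
  rw [if_pos (Finset.mem_univ _), ← mul_assoc, inv_mul_cancel₀ hn, one_mul]

/-- the exponential functions are linearly independent -/
lemma linInd {χ : AddChar (ZMod n) R} (hχ : χ.IsPrimitive) (φ : R →+* κ) (hn : (n : κ) ≠ 0) :
    LinearIndependent κ (fun a : ZMod n => fun j : ZMod n => φ (χ (a * j))) := by
  classical
  rw [Fintype.linearIndependent_iff]
  intro g hg a0
  have h1 : ∀ j, ∑ a, g a * φ (χ (a * j)) = 0 := by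
    intro j
    have h2 := congrFun hg j
    simpa [Finset.sum_apply] using h2
  have h2 : ∑ j, φ (χ (-(a0 * j))) * ∑ a, g a * φ (χ (a * j)) = 0 :=
    Finset.sum_eq_zero fun j _ => by rw [h1, mul_zero]
  have h3 : ∑ j, φ (χ (-(a0 * j))) * ∑ a, g a * φ (χ (a * j)) =
      ∑ a, if a = a0 then g a * (n : κ) else 0 := by
    simp only [Finset.mul_sum]
    rw [Finset.sum_comm]
    refine Finset.sum_congr rfl fun a _ => ?_
    have h4 : ∀ j, φ (χ (-(a0 * j))) * (g a * φ (χ (a * j))) =
        g a * φ (χ (j * (a - a0))) := by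
      intro j
      have h5 : j * (a - a0) = -(a0 * j) + a * j := by ring
      rw [h5, AddChar.map_add_eq_mul, map_mul φ]
      ring
    rw [Finset.sum_congr rfl (fun j _ => h4 j), ← Finset.mul_sum, sum_phi hχ φ]
    by_cases h : a = a0
    · rw [if_pos h, if_pos (by rw [h, sub_self])]
    · rw [if_neg h, if_neg (fun h5 => h (sub_eq_zero.1 h5)), mul_zero]
  rw [h3, Finset.sum_ite_eq' Finset.univ a0, if_pos (Finset.mem_univ _)] at h2
  exact (mul_eq_zero.1 h2).resolve_right hn

/-- the components of an element of a shift invariant space are in the space -/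
lemma mem_of_coef {χ : AddChar (ZMod n) R} (φ : R →+* κ)
    {X : Submodule κ (ZMod n → κ)} (hX : ∀ f ∈ X, shift κ n f ∈ X) {x : ZMod n → κ}
    (hx : x ∈ X) {a : ZMod n} (ha : coef χ φ x a ≠ 0) : (fun j => φ (χ (a * j))) ∈ X := by
  classical
  have hS : ∀ i : ℕ, (shift κ n ^ i) x ∈ X := by
    intro i
    induction i with
    | zero => simpa using hx
    | succ i ih =>
      rw [pow_succ', Module.End.mul_apply]
      exact hX _ ih
  have h1 : (coef χ φ x a) • (fun j => φ (χ (a * j))) =
      (n : κ)⁻¹ • ∑ i : ZMod n, φ (χ (-(a * i))) • (shift κ n ^ i.val) x := by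
    funext j
    rw [Pi.smul_apply, Pi.smul_apply, Finset.sum_apply, smul_eq_mul, smul_eq_mul]
    unfold coef
    rw [mul_assoc]
    congr 1
    rw [Finset.sum_mul, ← Equiv.sum_comp (Equiv.addLeft j)]
    refine Finset.sum_congr rfl fun i _ => ?_
    rw [Equiv.coe_addLeft, Pi.smul_apply, shift_pow_apply, ZMod.natCast_zmod_val, smul_eq_mul]
    have h2 : -(a * i) = -(a * (j + i)) + a * j := by ring
    rw [h2, AddChar.map_add_eq_mul, map_mul φ]
    ring
  have h2 : (coef χ φ x a) • (fun j => φ (χ (a * j))) ∈ X := by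
    rw [h1]
    exact X.smul_mem _ (X.sum_mem fun i _ => X.smul_mem _ (hS _))
  exact (X.smul_mem_iff ha).1 h2

/-- the number of the exponential functions in a subspace -/
lemma card_le {χ : AddChar (ZMod n) R} (hχ : χ.IsPrimitive) (φ : R →+* κ) (hn : (n : κ) ≠ 0)
    (X : Submodule κ (ZMod n → κ)) [Fintype {a : ZMod n // (fun j => φ (χ (a * j))) ∈ X}] :
    Fintype.card {a : ZMod n // (fun j => φ (χ (a * j))) ∈ X} ≤ Module.finrank κ X := by
  have h1 : LinearIndependent κ (fun a : {a : ZMod n // (fun j => φ (χ (a * j))) ∈ X} =>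
      (⟨fun j => φ (χ (a.1 * j)), a.2⟩ : X)) := by
    apply LinearIndependent.of_comp X.subtype
    exact (linInd hχ φ hn).comp _ Subtype.val_injective
  exact h1.fintype_card_le_finrank

end

end Pool.Agent.H512.E
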