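import Pool.Agent.H512.IT.Teich
import Pool.Agent.H512.IT.DetOdd

set_option autoImplicit false
set_option linter.unusedSectionVars false

/-!
# The residue field of `ℂ_p` and the reduction of subspaces
-/

namespace Pool.Agent.H512.E

open Pool.Agent.H512.IT

variable {p : ℕ} [hp : Fact p.Prime]

/-- the ring of integers of `ℂ_p` -/
def Oc (p : ℕ) [hp : Fact p.Prime] : Subring ℂ_[p] where
  carrier := {x | ‖x‖ ≤ 1}
  mul_mem' := by
    intro a b ha hb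
    change ‖a * b‖ ≤ 1
    rw [norm_mul]
    exact mul_le_one₀ ha (norm_nonneg _) hb
  one_mem' := by
    change ‖(1 : ℂ_[p])‖ ≤ 1
    rw [norm_one]
  add_mem' := by
    intro a b ha hb
    exact (IsUltrametricDist.norm_add_le_max a b).trans (max_le ha hb)
  zero_mem' := by
    change ‖(0 : ℂ_[p])‖ ≤ 1
    rw [norm_zero]
    exact zero_le_one
  neg_mem' := by
    intro a ha
    change ‖-a‖ ≤ 1
    rw [norm_neg]
    exact ha

lemma mem_Oc {x : ℂ_[p]} : x ∈ Oc p ↔ ‖x‖ ≤ 1 := Iff.rfl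

/-- the maximal ideal of `Oc p` -/
def mc (p : ℕ) [hp : Fact p.Prime] : Ideal (Oc p) where
  carrier := {x | ‖(x : ℂ_[p])‖ < 1}
  add_mem' := by
    intro a b ha hb
    change ‖((a + b : Oc p) : ℂ_[p])‖ < 1
    rw [Subring.coe_add]
    exact lt_of_le_of_lt (IsUltrametricDist.norm_add_le_max _ _) (max_lt ha hb)
  zero_mem' := by
    change ‖((0 : Oc p) : ℂ_[p])‖ < 1
    rw [Subring.coe_zero, norm_zero]
    exact zero_lt_one
  smul_mem' := by
    intro c x hx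
    change ‖((c • x : Oc p) : ℂ_[p])‖ < 1
    rw [smul_eq_mul, Subring.coe_mul, norm_mul]
    have h1 : ‖(c : ℂ_[p])‖ ≤ 1 := c.2
    have h2 : ‖(x : ℂ_[p])‖ < 1 := hx
    nlinarith [norm_nonneg (c : ℂ_[p]), norm_nonneg (x : ℂ_[p])]

lemma mem_mc {x : Oc p} : x ∈ mc p ↔ ‖(x : ℂ_[p])‖ < 1 := Iff.rfl

instance mc_max : (mc p).IsMaximal := by
  rw [Ideal.isMaximal_iff]
  constructor
  · intro h
    have h1 : ‖((1 : Oc p) : ℂ_[p])‖ < 1 := h
    rw [Subring.coe_one, norm_one] at h1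
    exact lt_irrefl _ h1
  · intro J x _ hx hxJ
    have h1 : ‖(x : ℂ_[p])‖ = 1 := le_antisymm x.2 (not_lt.1 hx)
    have hx0 : (x : ℂ_[p]) ≠ 0 := by
      intro h
      rw [h, norm_zero] at h1
      exact zero_ne_one h1
    let y : Oc p := ⟨(x : ℂ_[p])⁻¹, by rw [mem_Oc, norm_inv, h1, inv_one]⟩
    have h2 : y * x = 1 := by
      apply Subtype.ext
      change (x : ℂ_[p])⁻¹ * x = 1
      exact inv_mul_cancel₀ hx0
    rw [← h2]
    exact J.mul_mem_left _ hxJ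

/-- the residue field of `ℂ_p` -/
def Kap (p : ℕ) [hp : Fact p.Prime] : Type := Oc p ⧸ mc p

noncomputable instance : Field (Kap p) := Ideal.Quotient.field (mc p)

/-- the residue of an integer of `ℂ_p` -/
noncomputable def rd : Oc p →+* Kap p := Ideal.Quotient.mk (mc p)

lemma rd_surj : Function.Surjective (rd (p := p)) := Ideal.Quotient.mk_surjective

lemma rd_eq_zero {x : Oc p} : rd x = 0 ↔ ‖(x : ℂ_[p])‖ < 1 :=
  Ideal.Quotient.eq_zero_iff_mem.trans mem_mc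

open Classical in
/-- the residue of an element of `ℂ_p`, zero for non-integral elements -/
noncomputable def rdc (x : ℂ_[p]) : Kap p := if h : ‖x‖ ≤ 1 then rd ⟨x, h⟩ else 0

lemma rdc_eq {x : ℂ_[p]} (h : ‖x‖ ≤ 1) : rdc x = rd ⟨x, h⟩ := dif_pos h

lemma rdc_coe (x : Oc p) : rdc (x : ℂ_[p]) = rd x := rdc_eq x.2

lemma rdc_add {x y : ℂ_[p]} (hx : ‖x‖ ≤ 1) (hy : ‖y‖ ≤ 1) : rdc (x + y) = rdc x + rdc y := by
  rw [rdc_eq hx, rdc_eq hy, ← map_add, ← rdc_coe]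
  rfl

lemma rdc_mul {x y : ℂ_[p]} (hx : ‖x‖ ≤ 1) (hy : ‖y‖ ≤ 1) : rdc (x * y) = rdc x * rdc y := by
  rw [rdc_eq hx, rdc_eq hy, ← map_mul, ← rdc_coe]
  rfl

lemma rdc_zero : rdc (0 : ℂ_[p]) = 0 := by
  have h := rdc_coe (0 : Oc p)
  rw [map_zero] at h
  exact h

lemma rdc_one : rdc (1 : ℂ_[p]) = 1 := by
  have h := rdc_coe (1 : Oc p)
  rw [map_one] at h
  exact h

lemma rdc_natCast (n : ℕ) : rdc (n : ℂ_[p]) = (n : Kap p) := by
  have h := rdc_coe (n : Oc p)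
  rw [map_natCast] at h
  rw [← h]
  congr 1

lemma rdc_pow {x : ℂ_[p]} (hx : ‖x‖ ≤ 1) (n : ℕ) : rdc (x ^ n) = rdc x ^ n := by
  rw [rdc_eq hx, ← map_pow, ← rdc_coe]
  rfl

lemma rdc_eq_zero {x : ℂ_[p]} (hx : ‖x‖ ≤ 1) : rdc x = 0 ↔ ‖x‖ < 1 := by
  rw [rdc_eq hx, rd_eq_zero]

lemma rdc_ne_zero {x : ℂ_[p]} (hx : ‖x‖ = 1) : rdc x ≠ 0 := by
  rw [Ne, rdc_eq_zero hx.le, hx]
  exact lt_irrefl _

lemma rdc_sub {x y : ℂ_[p]} (hx : ‖x‖ ≤ 1) (hy : ‖y‖ ≤ 1) : rdc (x - y) = rdc x - rdc y := by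
  rw [rdc_eq hx, rdc_eq hy, ← map_sub, ← rdc_coe]
  rfl

lemma rdc_congr {x y : ℂ_[p]} (hx : ‖x‖ ≤ 1) (hy : ‖y‖ ≤ 1) (h : ‖x - y‖ < 1) :
    rdc x = rdc y := by
  rw [← sub_eq_zero, ← rdc_sub hx hy, rdc_eq_zero h.le]
  exact h

lemma rdc_inv {x : ℂ_[p]} (hx : ‖x‖ = 1) : rdc x⁻¹ = (rdc x)⁻¹ := by
  have h0 : x ≠ 0 := by
    rintro rfl
    simp at hx
  apply eq_inv_of_mul_eq_one_left
  rw [← rdc_mul (by rw [norm_inv, hx, inv_one]) hx.le, inv_mul_cancel₀ h0, rdc_one]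

lemma rdc_surj (y : Kap p) : ∃ x : ℂ_[p], ‖x‖ ≤ 1 ∧ rdc x = y := by
  obtain ⟨x, hx⟩ := rd_surj y
  exact ⟨x, x.2, by rw [rdc_coe, hx]⟩

lemma norm_sum_le {ι : Type} (s : Finset ι) (f : ι → ℂ_[p]) (h : ∀ i ∈ s, ‖f i‖ ≤ 1) :
    ‖∑ i ∈ s, f i‖ ≤ 1 := (Oc p).sum_mem (fun i hi => mem_Oc.2 (h i hi))

lemma rdc_sum {ι : Type} (s : Finset ι) (f : ι → ℂ_[p]) (h : ∀ i ∈ s, ‖f i‖ ≤ 1) :
    rdc (∑ i ∈ s, f i) = ∑ i ∈ s, rdc (f i) := by
  classical
  induction s using Finset.induction_on with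
  | empty => simp [rdc_zero]
  | insert i s hi ih =>
    rw [Finset.sum_insert hi, Finset.sum_insert hi, rdc_add (h i (Finset.mem_insert_self _ _))
      (norm_sum_le s f (fun j hj => h j (Finset.mem_insert_of_mem hj))),
      ih (fun j hj => h j (Finset.mem_insert_of_mem hj))]

lemma norm_p_c : ‖(p : ℂ_[p])‖ < 1 := by
  have h1 : (p : ℂ_[p]) = ((p : PadicAlgCl p) : ℂ_[p]) :=
    (map_natCast (algebraMap (PadicAlgCl p) ℂ_[p]) p).symm
  rw [h1, UniformSpace.Completion.norm_coe]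
  exact norm_p_lt_one

instance : CharP (Kap p) p := by
  rw [CharP.charP_iff_prime_eq_zero hp.out, ← rdc_natCast, rdc_eq_zero norm_p_c.le]
  exact norm_p_c

/-- roots exist in the residue field -/
lemma exists_root (y : Kap p) {n : ℕ} (hn : 0 < n) : ∃ z : Kap p, z ^ n = y := by
  by_cases hy : y = 0
  · exact ⟨0, by rw [hy, zero_pow hn.ne']⟩
  · obtain ⟨c, hc, rfl⟩ := rdc_surj y
    have hc1 : ‖c‖ = 1 := by
      refine le_antisymm hc (not_lt.1 fun h => hy ?_)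
      rwa [rdc_eq_zero hc]
    obtain ⟨N, hN, z, hz, hz'⟩ := exists_teich c hc1
    obtain ⟨w, hw⟩ := IsAlgClosed.exists_pow_nat_eq z hn
    have hN0 : N ≠ 0 := by
      rintro rfl
      exact hN (dvd_zero _)
    have hzn : ‖z‖ = 1 := by
      have h1 := congrArg norm hz
      rw [norm_pow, norm_one] at h1
      exact (pow_eq_one_iff_of_nonneg (norm_nonneg _) hN0).1 h1
    have hwn : ‖w‖ = 1 := by
      have h1 := congrArg norm hw
      rw [norm_pow, hzn] at h1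
      exact (pow_eq_one_iff_of_nonneg (norm_nonneg _) hn.ne').1 h1
    refine ⟨rdc (w : ℂ_[p]), ?_⟩
    have hwn' : ‖(w : ℂ_[p])‖ ≤ 1 := by
      rw [UniformSpace.Completion.norm_coe, hwn]
    rw [← rdc_pow hwn']
    have h1 : (w : ℂ_[p]) ^ n = (z : ℂ_[p]) := by
      rw [← hw]
      exact (map_pow (algebraMap (PadicAlgCl p) ℂ_[p]) w n).symm
    rw [h1]
    apply (rdc_congr hc _ hz').symm
    rw [UniformSpace.Completion.norm_coe, hzn]

section red

variable {ι : Type} [Fintype ι]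

/-- the reduction of a subspace -/
noncomputable def redSub (V : Submodule ℂ_[p] (ι → ℂ_[p])) : Submodule (Kap p) (ι → Kap p) where
  carrier := {y | ∃ v ∈ V, (∀ j, ‖v j‖ ≤ 1) ∧ ∀ j, y j = rdc (v j)}
  add_mem' := by
    rintro y y' ⟨v, hv, hv1, hv2⟩ ⟨v', hv', hv1', hv2'⟩
    refine ⟨v + v', V.add_mem hv hv', fun j => ?_, fun j => ?_⟩
    · exact (IsUltrametricDist.norm_add_le_max _ _).trans (max_le (hv1 j) (hv1' j))
    · rw [Pi.add_apply, Pi.add_apply, rdc_add (hv1 j) (hv1' j), hv2, hv2']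
  zero_mem' := ⟨0, V.zero_mem, fun j => by simp, fun j => by simp [rdc_zero]⟩
  smul_mem' := by
    rintro c y ⟨v, hv, hv1, hv2⟩
    obtain ⟨a, ha, rfl⟩ := rdc_surj c
    refine ⟨a • v, V.smul_mem _ hv, fun j => ?_, fun j => ?_⟩
    · rw [Pi.smul_apply, smul_eq_mul, norm_mul]
      exact mul_le_one₀ ha (norm_nonneg _) (hv1 j)
    · rw [Pi.smul_apply, Pi.smul_apply, smul_eq_mul, smul_eq_mul, rdc_mul ha (hv1 j), hv2]

lemma mem_redSub {V : Submodule ℂ_[p] (ι → ℂ_[p])} {y : ι → Kap p} :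
    y ∈ redSub V ↔ ∃ v ∈ V, (∀ j, ‖v j‖ ≤ 1) ∧ ∀ j, y j = rdc (v j) := Iff.rfl

/-- in a finite family of elements of `ℂ_p`, not all zero, there is one with maximal norm -/
lemma exists_max {β : Type} [Finite β] (a : β → ℂ_[p]) (h : ∃ i, a i ≠ 0) :
    ∃ i, a i ≠ 0 ∧ ∀ j, ‖a j‖ ≤ ‖a i‖ := by
  obtain ⟨i0, hi0⟩ := h
  have : Nonempty β := ⟨i0⟩
  obtain ⟨i, hi⟩ := Finite.exists_max (fun j => ‖a j‖)
  refine ⟨i, ?_, hi⟩
  intro h0
  have h1 := hi i0
  rw [h0, norm_zero] at h1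
  exact hi0 (norm_le_zero_iff.1 h1)

lemma finrank_redSub (V : Submodule ℂ_[p] (ι → ℂ_[p])) :
    Module.finrank (Kap p) (redSub V) ≤ Module.finrank ℂ_[p] V := by
  classical
  let r := Module.finrank (Kap p) (redSub V)
  let b : Module.Basis (Fin r) (Kap p) (redSub V) := Module.finBasis _ _
  have hb : ∀ i, ∃ v ∈ V, (∀ j, ‖v j‖ ≤ 1) ∧ ∀ j, (b i : ι → Kap p) j = rdc (v j) :=
    fun i => (b i).2
  choose v hv hv1 hv2 using hb
  have hli : LinearIndependent ℂ_[p] (fun i => (⟨v i, hv i⟩ : V)) := by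
    rw [Fintype.linearIndependent_iff]
    intro a ha i
    by_contra hne
    obtain ⟨i0, hi0, hmax⟩ := exists_max a ⟨i, hne⟩
    have h1 : ∀ j, ∑ i, a i * v i j = 0 := by
      intro j
      have h2 := congrFun (congrArg (fun x : V => (x : ι → ℂ_[p])) ha) j
      simp only [Submodule.coe_sum, Submodule.coe_smul, Finset.sum_apply, Pi.smul_apply,
        smul_eq_mul, Submodule.coe_zero, Pi.zero_apply] at h2
      exact h2
    have h2 : ∀ i, ‖a i / a i0‖ ≤ 1 := by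
      intro i
      rw [norm_div]
      exact div_le_one_of_le₀ (hmax i) (norm_nonneg _)
    have h3 : ∑ i, rdc (a i / a i0) • b i = 0 := by
      apply Subtype.ext
      funext j
      simp only [Submodule.coe_sum, Submodule.coe_smul, Finset.sum_apply, Pi.smul_apply,
        smul_eq_mul, Submodule.coe_zero, Pi.zero_apply]
      have h4 : ∀ i, rdc (a i / a i0) * (b i : ι → Kap p) j = rdc ((a i / a i0) * v i j) := by
        intro i
        rw [hv2, rdc_mul (h2 i) (hv1 i j)]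
      rw [Finset.sum_congr rfl (fun i _ => h4 i), ← rdc_sum]
      · have h5 : ∀ i, a i / a i0 * v i j = (a i0)⁻¹ * (a i * v i j) := by
          intro i
          ring
        rw [Finset.sum_congr rfl (fun i _ => h5 i), ← Finset.mul_sum, h1, mul_zero, rdc_zero]
      · intro i _
        rw [norm_mul]
        exact mul_le_one₀ (h2 i) (norm_nonneg _) (hv1 i j)
    have h4 := (Fintype.linearIndependent_iff.1 b.linearIndependent) _ h3 i0
    rw [div_self hi0, rdc_one] at h4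
    exact one_ne_zero h4
  have h1 := hli.fintype_card_le_finrank
  rwa [Fintype.card_fin] at h1

end red

end Pool.Agent.H512.E
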